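import Pool.Agent.Helper49.Fano.ChartD

set_option autoImplicit false

namespace Pool.Agent.Helper49.Fano

noncomputable section

theorem span_inter {K : Type} [Field K] [Algebra ℂ K] {ι : Type} {v : ι → K}
    (hv : LinearIndependent ℂ v) (S T : Set ι) {z : K} (h1 : z ∈ Submodule.span ℂ (v '' S))
    (h2 : z ∈ Submodule.span ℂ (v '' T)) : z ∈ Submodule.span ℂ (v '' (S ∩ T)) := by
  rw [Finsupp.mem_span_image_iff_linearCombination] at h1 h2 ⊢
  obtain ⟨l, hl, rfl⟩ := h1
  obtain ⟨l', hl', he⟩ := h2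
  have h3 : l' = l := hv.finsuppLinearCombination_injective he
  subst h3
  refine ⟨l', ?_, rfl⟩
  rw [Finsupp.mem_supported] at hl hl' ⊢
  exact Set.subset_inter hl hl'

namespace PD

variable {K : Type} [Field K] [Algebra ℂ K] (D : PD K)

theorem v_mul (i j : ℤ) (e : Fin 2) (m n : ℤ) : D.x ^ m * D.y ^ n * D.v (i, j, e) =
    D.v (i + m, j + n, e) := by
  simp only [v]
  rw [zpow_add₀ D.hx, zpow_add₀ D.hy]; ring

/-- monomials with nonnegative exponents -/
def S0 : Set (ℤ × ℤ × Fin 2) := {p | 0 ≤ p.1 ∧ 0 ≤ p.2.1}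

theorem B_le {z : K} (hz : z ∈ D.B) : z ∈ Submodule.span ℂ (D.v '' S0) := by
  have hx := D.hx
  have hy := D.hy
  refine adjoin_sub _ _ ?_ ?_ hz
  · refine Submodule.subset_span ⟨(0, 0, 0), ⟨le_rfl, le_rfl⟩, ?_⟩
    simp [v]
  · intro a ha z hz
    refine Submodule.span_induction (p := fun z _ => a * z ∈ Submodule.span ℂ
      (D.v '' S0)) ?_ ?_ ?_ ?_ hz
    · rintro _ ⟨⟨m, n, e⟩, ⟨hm, hn⟩, rfl⟩
      change 0 ≤ m at hm
      change 0 ≤ n at hn
      rcases ha with rfl | rfl | rfl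
      · refine Submodule.subset_span ⟨(m + 1, n + 0, e), ⟨by simp; omega, by simp; omega⟩, ?_⟩
        rw [← v_mul]; simp
      · refine Submodule.subset_span ⟨(m + 0, n + 1, e), ⟨by simp; omega, by simp; omega⟩, ?_⟩
        rw [← v_mul]; simp
      · fin_cases e
        · refine Submodule.subset_span ⟨(m, n, 1), ⟨hm, hn⟩, ?_⟩
          simp [v]; ring
        · have h : D.w * D.v (m, n, 1) = D.a • D.v (m, n, 0) +
              D.b • D.v (m + 2, n + 0, 0) +
              D.c • D.v (m + 0, n + 2, 0) +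
              D.d • D.v (m + 2, n + 2, 0) := by
            rw [← v_mul, ← v_mul, ← v_mul]
            simp only [v, Algebra.smul_def, Fin.val_zero, Fin.val_one, pow_zero, pow_one, mul_one,
              zpow_zero]
            rw [show D.x ^ (2 : ℤ) = D.x ^ 2 from zpow_natCast _ 2,
              show D.y ^ (2 : ℤ) = D.y ^ 2 from zpow_natCast _ 2]
            linear_combination D.x ^ m * D.y ^ n * D.eqn
          change D.w * D.v (m, n, 1) ∈ _
          rw [h]
          refine add_mem (add_mem (add_mem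
            (Submodule.smul_mem _ _ (Submodule.subset_span ⟨_, ⟨?_, ?_⟩, rfl⟩))
            (Submodule.smul_mem _ _ (Submodule.subset_span ⟨_, ⟨?_, ?_⟩, rfl⟩)))
            (Submodule.smul_mem _ _ (Submodule.subset_span ⟨_, ⟨?_, ?_⟩, rfl⟩)))
            (Submodule.smul_mem _ _ (Submodule.subset_span ⟨_, ⟨?_, ?_⟩, rfl⟩)) <;>
            · simp only; omega
    · simp
    · intro u v _ _ h1 h2
      rw [mul_add]; exact add_mem h1 h2
    · intro r u _ h1
      rw [mul_smul_comm]; exact Submodule.smul_mem _ _ h1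

theorem flipX_v (i j : ℤ) (e : Fin 2) : D.x * D.flipX.v (i, j, e) =
    D.v (1 - i - (e : ℕ), j, e) := by
  simp only [v, flipX_x, flipX_y, flipX_w]
  have := D.hx
  rw [div_pow, zpow_sub₀ D.hx, zpow_sub₀ D.hx, inv_zpow, zpow_natCast, zpow_one]
  field_simp

theorem flipY_v (i j : ℤ) (e : Fin 2) : D.y * D.flipY.v (i, j, e) =
    D.v (i, 1 - j - (e : ℕ), e) := by
  simp only [v, flipY_x, flipY_y, flipY_w]
  have := D.hy
  rw [div_pow, zpow_sub₀ D.hy, zpow_sub₀ D.hy, inv_zpow, zpow_natCast, zpow_one]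
  field_simp

theorem inter {z : K} (h0 : z ∈ D.B) (h1 : z / D.x ∈ D.flipX.B) (h2 : z / D.y ∈ D.flipY.B) :
    z ∈ Submodule.span ℂ (Set.range D.e) := by
  have hx := D.hx
  have hy := D.hy
  have k1 : z ∈ Submodule.span ℂ (D.v '' {p | p.1 ≤ 1 - (p.2.2 : ℕ)}) := by
    have h3 := D.flipX.B_le h1
    have h4 : z = D.x * (z / D.x) := by field_simp
    rw [h4]
    refine Submodule.span_induction (p := fun z _ => D.x * z ∈ Submodule.span ℂ
      (D.v '' {p | p.1 ≤ 1 - (p.2.2 : ℕ)})) ?_ ?_ ?_ ?_ h3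
    · rintro _ ⟨⟨m, n, e⟩, ⟨hm, hn⟩, rfl⟩
      rw [flipX_v]
      refine Submodule.subset_span ⟨_, ?_, rfl⟩
      simp only [Set.mem_ofPred_eq]
      simp only at hm
      omega
    · simp
    · intro u v _ _ h1 h2
      rw [mul_add]; exact add_mem h1 h2
    · intro r u _ h1
      rw [mul_smul_comm]; exact Submodule.smul_mem _ _ h1
  have k2 : z ∈ Submodule.span ℂ (D.v '' {p | p.2.1 ≤ 1 - (p.2.2 : ℕ)}) := by
    have h3 := D.flipY.B_le h2
    have h4 : z = D.y * (z / D.y) := by field_simp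
    rw [h4]
    refine Submodule.span_induction (p := fun z _ => D.y * z ∈ Submodule.span ℂ
      (D.v '' {p | p.2.1 ≤ 1 - (p.2.2 : ℕ)})) ?_ ?_ ?_ ?_ h3
    · rintro _ ⟨⟨m, n, e⟩, ⟨hm, hn⟩, rfl⟩
      rw [flipY_v]
      refine Submodule.subset_span ⟨_, ?_, rfl⟩
      simp only [Set.mem_ofPred_eq]
      simp only at hn
      omega
    · simp
    · intro u v _ _ h1 h2
      rw [mul_add]; exact add_mem h1 h2
    · intro r u _ h1
      rw [mul_smul_comm]; exact Submodule.smul_mem _ _ h1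
  have k3 := span_inter D.indep _ _ (span_inter D.indep _ _ (D.B_le h0) k1) k2
  refine Submodule.span_mono ?_ k3
  rintro _ ⟨⟨m, n, e⟩, ⟨⟨⟨h1, h2⟩, h3⟩, h4⟩, rfl⟩
  simp only [Set.mem_ofPred_eq] at h1 h2 h3 h4
  fin_cases e
  · simp only [Nat.cast_zero, sub_zero] at h3 h4
    have hm : m = 0 ∨ m = 1 := by omega
    have hn : n = 0 ∨ n = 1 := by omega
    rcases hm with rfl | rfl <;> rcases hn with rfl | rfl
    · exact ⟨0, by simp [e]⟩
    · exact ⟨2, by simp [e]⟩
    · exact ⟨1, by simp [e]⟩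
    · exact ⟨3, by simp [e]⟩
  · simp only [Nat.cast_one, sub_self] at h3 h4
    have hm : m = 0 := by omega
    have hn : n = 0 := by omega
    subst hm; subst hn
    exact ⟨4, by simp [e]⟩

end PD

end

end Pool.Agent.Helper49.Fano
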