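import Pool.Agent.Helper49.Fano.Surf
import Pool.Agent.Helper49.Fano.ChartE

set_option autoImplicit false

open CategoryTheory AlgebraicGeometry Limits Opposite

namespace Pool.Agent.Helper49.Fano

noncomputable section

namespace PD

variable {K : Type} [Field K] [Algebra ℂ K] (D : PD K)

omit [Algebra ℂ K] in
theorem sg_mem (O : Subring K) (i : Fin 4) : sg i ∈ O := by
  fin_cases i
  · exact one_mem O
  · exact neg_mem (one_mem O)
  · exact neg_mem (one_mem O)
  · exact one_mem O

theorem th_ch (i : Fin 4) (p q : K) : D.e (ix i) * D.th p q = sg i * (D.ch i).th p q := by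
  rw [D.ch_th]
  linear_combination (-D.e (ix i) * D.th p q) * sg_mul (K := K) i

theorem th_ch' (i : Fin 4) (u p q : K) : u * D.th p q = (u / D.e (ix i)) *
    (sg i * (D.ch i).th p q) := by
  rw [← D.th_ch]
  have := D.e_ne i
  field_simp

/-- `u θ` is regular at `y` -/
def reg [IsIntegral (PX D.e)] (y : PX D.e) (u : K) : Prop :=
  ∀ p ∈ D.O y, ∀ q ∈ D.O y, u * D.th p q ∈ D.O y

/-- `u θ` is regular and nonzero at `y` -/
def nz [IsIntegral (PX D.e)] (y : PX D.e) (u : K) : Prop :=
  D.reg y u ∧ ∃ p ∈ D.O y, ∃ q ∈ D.O y, u * D.th p q ≠ 0 ∧ (u * D.th p q)⁻¹ ∈ D.O y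

theorem reg_iff [IsIntegral (PX D.e)] {i : Fin 4} {y : PX D.e} (hy : y ∈ DU D.e (ix i)) (u : K) :
    D.reg y u ↔ u / D.e (ix i) ∈ D.O y := by
  have hL := D.isLocOf hy
  constructor
  · intro h
    obtain ⟨p, hp, q, hq, h0, hi⟩ := hL.exists_unit
    have h1 := h p hp q hq
    rw [D.th_ch' i] at h1
    have h2 : u / D.e (ix i) = (u / D.e (ix i) * (sg i * (D.ch i).th p q)) *
        (sg i * ((D.ch i).th p q)⁻¹) := by
      have h3 := mul_inv_cancel₀ h0
      linear_combination (- (u / D.e (ix i))) * sg_mul (K := K) i -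
        (u / D.e (ix i)) * (sg i * sg i) * h3
    rw [h2]
    exact mul_mem h1 (mul_mem (sg_mem _ i) hi)
  · intro h p hp q hq
    rw [D.th_ch' i]
    exact mul_mem h (mul_mem (sg_mem _ i) (hL.th_mem hp hq))

theorem nz_iff [IsIntegral (PX D.e)] {i j : Fin 4} {y : PX D.e} (hy : y ∈ DU D.e (ix i)) :
    D.nz y (D.e (ix j)) ↔ y ∈ DU D.e (ix j) := by
  have hL := D.isLocOf hy
  constructor
  · rintro ⟨h1, p, hp, q, hq, h0, hi⟩
    rw [D.reg_iff hy] at h1
    rw [D.th_ch' i] at h0 hi
    have hm : sg i * (D.ch i).th p q ∈ D.O y := mul_mem (sg_mem _ i) (hL.th_mem hp hq)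
    rw [mul_comm] at h0 hi
    obtain ⟨h2, h3⟩ := mul_unit hm h1 h0 hi
    rw [inv_div] at h3
    exact mem_DU_of_chart_le D.e (D.e_ne 0) (D.e_ne j) (D.e_ne i) hy h3
  · intro hj
    have hLj := D.isLocOf hj
    refine ⟨?_, ?_⟩
    · rw [D.reg_iff hj, div_self (D.e_ne j)]
      exact one_mem _
    · obtain ⟨p, hp, q, hq, h0, hi⟩ := hLj.exists_unit
      refine ⟨p, hp, q, hq, ?_, ?_⟩
      · rw [D.th_ch]
        refine mul_ne_zero ?_ h0
        intro h
        have := sg_mul (K := K) j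
        rw [h, zero_mul] at this
        exact zero_ne_one this
      · rw [D.th_ch, mul_inv]
        refine mul_mem ?_ hi
        rw [← eq_inv_of_mul_eq_one_left (sg_mul (K := K) j)]
        exact sg_mem _ j

theorem reg_e [IsIntegral (PX D.e)] (j : Fin 5) (y : PX D.e) : D.reg y (D.e j) := by
  obtain ⟨i, hi⟩ := D.cover y
  rw [D.reg_iff hi]
  exact chart_le_locK D.e (D.e_ne 0) (D.e_ne i) hi (Algebra.subset_adjoin ⟨j, rfl⟩)

theorem mem_of_reg [IsIntegral (PX D.e)] {u : K} (hu : ∀ y, D.reg y u) :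
    u ∈ Submodule.span ℂ (Set.range D.e) := by
  have h : ∀ i : Fin 4, u / D.e (ix i) ∈ (D.ch i).B := by
    intro i
    rw [← D.chart_eq]
    apply mem_chart_of_forall D.e (D.e_ne 0) (D.e_ne i)
    intro y hy
    exact (D.reg_iff hy u).1 (hu y)
  have h0 : u ∈ D.B := by
    have := h 0
    change u / 1 ∈ D.B at this
    rwa [div_one] at this
  exact D.inter h0 (h 1) (h 2)

theorem th_add' (a b c : K) : D.th (a + b) c = D.th a c + D.th b c := by
  rw [D.th_swap, D.th_add, D.th_swap c a, D.th_swap c b]; ring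

theorem th_mul' (a b c : K) : D.th (a * b) c = a * D.th b c + b * D.th a c := by
  rw [D.th_swap, D.th_mul, D.th_swap c a, D.th_swap c b]; ring

section Sections

variable [IsIntegral (PX D.e)] [IsIntegral (VP D.e).X]
  (hfr : ∀ z : K, ∃ p ∈ D.B, ∃ q ∈ D.B, q ≠ 0 ∧ z = p / q)

/-- identification of the function field -/
def phi (hfr : ∀ z : K, ∃ p ∈ D.B, ∃ q ∈ D.B, q ≠ 0 ∧ z = p / q) : (VP D.e).K ≃+* K :=
  phiK D.e (D.e_ne 0) (by rw [D.chart_eq]; exact hfr)

theorem phi_const (c : ℂ) : D.phi hfr ((VP D.e).constK c) = algebraMap ℂ K c :=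
  phiHom_const D.e (D.e_ne 0) c

theorem phi_loc (y : PX D.e) (z : (VP D.e).K) : z ∈ (VP D.e).loc y ↔ D.phi hfr z ∈ D.O y := by
  constructor
  · intro h
    exact ⟨z, h, rfl⟩
  · rintro ⟨z', h, he⟩
    have : z' = z := (D.phi hfr).injective he
    rwa [← this]

/-- the bracket on the function field -/
def del (v : Fin 2 → (VP D.e).K) : (VP D.e).K :=
  (D.phi hfr).symm (D.th (D.phi hfr (v 0)) (D.phi hfr (v 1)))

theorem phi_del (v : Fin 2 → (VP D.e).K) : D.phi hfr (D.del hfr v) =
    D.th (D.phi hfr (v 0)) (D.phi hfr (v 1)) := (D.phi hfr).apply_symm_apply _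

theorem del_multi : IsMultiDer (VP D.e).C (D.del hfr) where
  add v i a b := by
    apply (D.phi hfr).injective
    rw [map_add, phi_del, phi_del, phi_del]
    fin_cases i
    · simp [th_add']
    · simp [th_add]
  leibniz v i a b := by
    apply (D.phi hfr).injective
    rw [map_add, map_mul, map_mul, phi_del, phi_del, phi_del]
    fin_cases i
    · simp [th_mul']
    · simp [th_mul]
  const v i h := by
    apply (D.phi hfr).injective
    rw [phi_del, map_zero]
    obtain ⟨c, hc⟩ := h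
    have h1 : D.phi hfr (v i) = algebraMap ℂ K c := by rw [← hc]; exact D.phi_const hfr c
    fin_cases i
    · change D.phi hfr (v 0) = _ at h1
      rw [h1, th_swap, th_const, neg_zero]
    · change D.phi hfr (v 1) = _ at h1
      rw [h1, th_const]
  alt v i j hij hv := by
    apply (D.phi hfr).injective
    rw [phi_del, map_zero]
    have h1 : v 0 = v 1 := by
      fin_cases i <;> fin_cases j
      · exact absurd rfl hij
      · exact hv
      · exact hv.symm
      · exact absurd rfl hij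
    rw [h1, th_self]

/-- the section `u θ` of the anticanonical bundle -/
def sec (u : K) : AntiSec (VP D.e) 2 1 := ⟨(D.phi hfr).symm u, D.del hfr, D.del_multi hfr⟩

theorem phi_val (u : K) (f : Fin 1 → Fin 2 → (VP D.e).K) : D.phi hfr ((D.sec hfr u).val f) =
    u * D.th (D.phi hfr (f 0 0)) (D.phi hfr (f 0 1)) := by
  unfold AntiSec.val
  rw [Fin.prod_univ_one, map_mul]
  change D.phi hfr ((D.phi hfr).symm u) * D.phi hfr (D.del hfr (f 0)) = _
  rw [phi_del, RingEquiv.apply_symm_apply]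

theorem reg_sec (u : K) (y : PX D.e) : (D.sec hfr u).RegularAt y ↔ D.reg y u := by
  constructor
  · intro h p hp q hq
    have h1 := h (fun _ => ![(D.phi hfr).symm p, (D.phi hfr).symm q]) (by
      intro i j
      rw [D.phi_loc hfr]
      fin_cases j
      · change D.phi hfr ((D.phi hfr).symm p) ∈ _
        rwa [RingEquiv.apply_symm_apply]
      · change D.phi hfr ((D.phi hfr).symm q) ∈ _
        rwa [RingEquiv.apply_symm_apply])
    rw [D.phi_loc hfr, phi_val] at h1
    change u * D.th (D.phi hfr ((D.phi hfr).symm p)) (D.phi hfr ((D.phi hfr).symm q)) ∈ _ at h1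
    rwa [RingEquiv.apply_symm_apply, RingEquiv.apply_symm_apply] at h1
  · intro h f hf
    rw [D.phi_loc hfr, phi_val]
    exact h _ ((D.phi_loc hfr y _).1 (hf 0 0)) _ ((D.phi_loc hfr y _).1 (hf 0 1))

theorem nz_sec (u : K) (y : PX D.e) : (D.sec hfr u).NonzeroAt y ↔ D.nz y u := by
  unfold AntiSec.NonzeroAt nz
  rw [D.reg_sec hfr]
  refine and_congr_right fun _ => ?_
  constructor
  · rintro ⟨f, hf, h0, hi⟩
    refine ⟨_, (D.phi_loc hfr y _).1 (hf 0 0), _, (D.phi_loc hfr y _).1 (hf 0 1), ?_, ?_⟩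
    · rw [← D.phi_val hfr]
      exact (map_ne_zero (D.phi hfr)).2 h0
    · rw [← D.phi_val hfr, ← map_inv₀]
      exact (D.phi_loc hfr y _).1 hi
  · rintro ⟨p, hp, q, hq, h0, hi⟩
    have hv : D.phi hfr ((D.sec hfr u).val (fun _ => ![(D.phi hfr).symm p, (D.phi hfr).symm q])) =
        u * D.th p q := by
      rw [phi_val]
      change u * D.th (D.phi hfr ((D.phi hfr).symm p)) (D.phi hfr ((D.phi hfr).symm q)) = _
      rw [RingEquiv.apply_symm_apply, RingEquiv.apply_symm_apply]
    refine ⟨fun _ => ![(D.phi hfr).symm p, (D.phi hfr).symm q], ?_, ?_, ?_⟩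
    · intro i j
      rw [D.phi_loc hfr]
      fin_cases j
      · change D.phi hfr ((D.phi hfr).symm p) ∈ _
        rwa [RingEquiv.apply_symm_apply]
      · change D.phi hfr ((D.phi hfr).symm q) ∈ _
        rwa [RingEquiv.apply_symm_apply]
    · intro h
      apply h0
      rw [← hv, h, map_zero]
    · rw [D.phi_loc hfr, map_inv₀, hv]
      exact hi

include hfr in
theorem ample : AmpleAnticanonical (VP D.e) 2 := by
  intro x
  obtain ⟨i, hi⟩ := D.cover x
  refine ⟨1, D.sec hfr (D.e (ix i)), one_pos, ?_, ?_, DU D.e (ix i), DU_affine D.e _, ?_⟩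
  · intro y
    exact (D.reg_sec hfr _ y).2 (D.reg_e _ y)
  · exact (D.nz_sec hfr _ x).2 ((D.nz_iff hi).2 hi)
  · ext y
    obtain ⟨j, hj⟩ := D.cover y
    rw [Set.mem_ofPred_eq]
    exact ((D.nz_sec hfr _ y).trans (D.nz_iff hj)).symm

end Sections

/-- The surface is a del Pezzo surface. -/
theorem isFano (hfr : ∀ z : K, ∃ p ∈ D.B, ∃ q ∈ D.B, q ≠ 0 ∧ z = p / q)
    (htr : IsTranscendenceBasis ℂ (![D.x, D.y] : Fin 2 → K)) : IsFano (VP D.e) 2 := by
  have h1 : IsIntegral (PX D.e) := D.integral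
  have h2 : IsIntegral (VP D.e).X := D.integral
  exact {
    integral := h2
    smooth := D.smoothV
    projective := VP_projective D.e
    dim := VP_hasDim D.e (D.e_ne 0) (by rw [D.chart_eq]; exact hfr) _ htr
    ample := D.ample hfr }

end PD

end

end Pool.Agent.Helper49.Fano
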