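import Mathlib

set_option autoImplicit false

open Polynomial

namespace Pool.Agent.Helper49.Fano

noncomputable section

/-- The coordinate ring of `W^2 = a + b X^2 + c Y^2 + d X^2 Y^2`, as a quotient of a polynomial
ring. -/
def FP (a b c d : ℂ) : MvPolynomial (Fin 3) ℂ :=
  MvPolynomial.X 2 ^ 2 - (MvPolynomial.C a + MvPolynomial.C b * MvPolynomial.X 0 ^ 2 +
    MvPolynomial.C c * MvPolynomial.X 1 ^ 2 +
    MvPolynomial.C d * (MvPolynomial.X 0 ^ 2 * MvPolynomial.X 1 ^ 2))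

/-- quotient ring -/
abbrev QR (a b c d : ℂ) : Type := MvPolynomial (Fin 3) ℂ ⧸ Ideal.span {FP a b c d}

theorem aeval_FP (a b c d : ℂ) {A : Type} [CommRing A] [Algebra ℂ A] (v : Fin 3 → A) :
    MvPolynomial.aeval v (FP a b c d) = v 2 ^ 2 - (algebraMap ℂ A a + algebraMap ℂ A b * v 0 ^ 2 +
      algebraMap ℂ A c * v 1 ^ 2 + algebraMap ℂ A d * (v 0 ^ 2 * v 1 ^ 2)) := by
  simp [FP]

/-- homomorphisms out of the quotient ring -/
def QR.lift (a b c d : ℂ) {A : Type} [CommRing A] [Algebra ℂ A] (v : Fin 3 → A)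
    (hv : v 2 ^ 2 = algebraMap ℂ A a + algebraMap ℂ A b * v 0 ^ 2 +
      algebraMap ℂ A c * v 1 ^ 2 + algebraMap ℂ A d * (v 0 ^ 2 * v 1 ^ 2)) :
    QR a b c d →ₐ[ℂ] A :=
  Ideal.Quotient.liftₐ _ (MvPolynomial.aeval v) (by
    intro p hp
    obtain ⟨q, rfl⟩ := Ideal.mem_span_singleton'.1 hp
    rw [map_mul, aeval_FP, hv, sub_self, mul_zero])

theorem QR.lift_X (a b c d : ℂ) {A : Type} [CommRing A] [Algebra ℂ A] (v : Fin 3 → A)
    (hv : v 2 ^ 2 = algebraMap ℂ A a + algebraMap ℂ A b * v 0 ^ 2 +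
      algebraMap ℂ A c * v 1 ^ 2 + algebraMap ℂ A d * (v 0 ^ 2 * v 1 ^ 2)) (i : Fin 3) :
    QR.lift a b c d v hv (Ideal.Quotient.mkₐ ℂ _ (MvPolynomial.X i)) = v i := by
  change MvPolynomial.aeval v (MvPolynomial.X i) = v i
  simp

theorem QR.ext (a b c d : ℂ) {A : Type} [CommRing A] [Algebra ℂ A] {f g : QR a b c d →ₐ[ℂ] A}
    (h : ∀ i, f (Ideal.Quotient.mkₐ ℂ _ (MvPolynomial.X i)) =
      g (Ideal.Quotient.mkₐ ℂ _ (MvPolynomial.X i))) : f = g := by
  apply Ideal.Quotient.algHom_ext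
  apply MvPolynomial.algHom_ext
  intro i
  exact h i

/-- the crucial computation -/
theorem lift_calc {A : Type} [CommRing A] (a b c d α D X Y W F : A)
    (hF : F = W ^ 2 - (a + b * X ^ 2 + c * Y ^ 2 + d * (X ^ 2 * Y ^ 2)))
    (hF2 : F * F = 0) (hα : 2 * (a * D * α) = 1) (hD : D = a * d - b * c) :
    ∃ p q r : A, (W + F * r) ^ 2 = a + b * (X + F * p) ^ 2 + c * (Y + F * q) ^ 2 +
      d * ((X + F * p) ^ 2 * (Y + F * q) ^ 2) := by
  have key : ∀ p q r : A, (W + F * r) ^ 2 - (a + b * (X + F * p) ^ 2 + c * (Y + F * q) ^ 2 +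
      d * ((X + F * p) ^ 2 * (Y + F * q) ^ 2)) = F * (1 + 2 * W * r - 2 * X * (b + d * Y ^ 2) * p
        - 2 * Y * (c + d * X ^ 2) * q) := by
    intro p q r
    have h1 : (W + F * r) ^ 2 = W ^ 2 + 2 * W * F * r := by linear_combination r ^ 2 * hF2
    have h2 : (X + F * p) ^ 2 = X ^ 2 + 2 * X * F * p := by linear_combination p ^ 2 * hF2
    have h3 : (Y + F * q) ^ 2 = Y ^ 2 + 2 * Y * F * q := by linear_combination q ^ 2 * hF2
    rw [h1, h2, h3]
    linear_combination (-1 : A) * hF - 4 * d * X * p * Y * q * hF2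
  have h5 : ∃ p q r h : A, 1 + 2 * W * r - 2 * X * (b + d * Y ^ 2) * p
        - 2 * Y * (c + d * X ^ 2) * q = F * h := by
    have e1 : W ^ 2 = F + (a + b * X ^ 2 + c * Y ^ 2 + d * (X ^ 2 * Y ^ 2)) := by rw [hF]; ring
    refine ⟨α * b * X * (d * X ^ 2 + c), -α * D * Y, -α * (D - b * d * X ^ 2) * W,
      -2 * α * (D - b * d * X ^ 2), ?_⟩
    linear_combination (-2) * α * (D - b * d * X ^ 2) * e1 - hα - 2 * α * b * X ^ 2 * hD
  obtain ⟨p, q, r, h, h6⟩ := h5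
  refine ⟨p, q, r, ?_⟩
  have h7 := key p q r
  rw [h6] at h7
  linear_combination h7 + h * hF2

theorem QR.formallySmooth (a b c d : ℂ) (ha : a ≠ 0) (hD : a * d - b * c ≠ 0) :
    Algebra.FormallySmooth ℂ (QR a b c d) := by
  apply Algebra.FormallySmooth.of_comp_surjective
  intro A _ _ I hI f
  have hsurj := Ideal.Quotient.mkₐ_surjective ℂ I
  let u : Fin 3 → A ⧸ I := fun i => f (Ideal.Quotient.mkₐ ℂ _ (MvPolynomial.X i))
  choose v hv using fun i => hsurj (u i)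
  let F : A := v 2 ^ 2 - (algebraMap ℂ A a + algebraMap ℂ A b * v 0 ^ 2 +
      algebraMap ℂ A c * v 1 ^ 2 + algebraMap ℂ A d * (v 0 ^ 2 * v 1 ^ 2))
  have hu : u 2 ^ 2 = algebraMap ℂ (A ⧸ I) a + algebraMap ℂ (A ⧸ I) b * u 0 ^ 2 +
      algebraMap ℂ (A ⧸ I) c * u 1 ^ 2 + algebraMap ℂ (A ⧸ I) d * (u 0 ^ 2 * u 1 ^ 2) := by
    have h1 : f (Ideal.Quotient.mkₐ ℂ (Ideal.span {FP a b c d}) (FP a b c d)) = 0 := by
      have : Ideal.Quotient.mkₐ ℂ (Ideal.span {FP a b c d}) (FP a b c d) = 0 :=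
        Ideal.Quotient.eq_zero_iff_mem.2 (Ideal.subset_span rfl)
      rw [this, map_zero]
    have h2 : f.comp (Ideal.Quotient.mkₐ ℂ (Ideal.span {FP a b c d})) =
        MvPolynomial.aeval u := by
      apply MvPolynomial.algHom_ext
      intro i
      simp [u]
    have h3 : MvPolynomial.aeval u (FP a b c d) = 0 := by
      rw [← h2]; exact h1
    rw [aeval_FP] at h3
    exact sub_eq_zero.1 h3
  have hFI : F ∈ I := by
    rw [← Ideal.Quotient.eq_zero_iff_mem]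
    change Ideal.Quotient.mkₐ ℂ I F = 0
    simp only [F, map_sub, map_add, map_mul, map_pow, AlgHom.commutes, hv]
    rw [hu, sub_self]
  have hI2 : ∀ p q : A, p ∈ I → q ∈ I → p * q = 0 := by
    intro p q hp hq
    have : p * q ∈ I ^ 2 := by rw [pow_two]; exact Ideal.mul_mem_mul hp hq
    rwa [hI, Ideal.mem_bot] at this
  obtain ⟨p, q, r, h⟩ := lift_calc (algebraMap ℂ A a) (algebraMap ℂ A b) (algebraMap ℂ A c)
    (algebraMap ℂ A d) (algebraMap ℂ A (2 * (a * (a * d - b * c)))⁻¹)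
    (algebraMap ℂ A (a * d - b * c)) (v 0) (v 1) (v 2) F rfl (hI2 _ _ hFI hFI)
    (by
      rw [show (2 : A) = algebraMap ℂ A 2 by rw [map_ofNat], ← map_mul, ← map_mul, ← map_mul,
        ← map_one (algebraMap ℂ A)]
      congr 1
      field_simp)
    (by rw [map_sub, map_mul, map_mul])
  let v' : Fin 3 → A := ![v 0 + F * p, v 1 + F * q, v 2 + F * r]
  have h' : v' 2 ^ 2 = algebraMap ℂ A a + algebraMap ℂ A b * v' 0 ^ 2 +
      algebraMap ℂ A c * v' 1 ^ 2 + algebraMap ℂ A d * (v' 0 ^ 2 * v' 1 ^ 2) := h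
  refine ⟨QR.lift a b c d v' h', ?_⟩
  apply QR.ext
  intro i
  change Ideal.Quotient.mkₐ ℂ I (QR.lift a b c d v' h' (Ideal.Quotient.mkₐ ℂ _ (MvPolynomial.X i))) =
    u i
  rw [QR.lift_X, ← hv i]
  have hF0 : Ideal.Quotient.mk I F = 0 := Ideal.Quotient.eq_zero_iff_mem.2 hFI
  fin_cases i <;> simp [v', hF0]

theorem QR.smooth (a b c d : ℂ) (ha : a ≠ 0) (hD : a * d - b * c ≠ 0) :
    Algebra.Smooth ℂ (QR a b c d) where
  formallySmooth := QR.formallySmooth a b c d ha hD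
  finitePresentation := Algebra.FinitePresentation.of_finiteType.1 inferInstance

end

end Pool.Agent.Helper49.Fano
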