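import Pool.Agent.Helper49.Fano.ChartA

set_option autoImplicit false

open Polynomial

namespace Pool.Agent.Helper49.Fano

noncomputable section

/-- An algebra generated by `s` is contained in every subspace that contains `1` and is stable
under multiplication by the elements of `s`. -/
theorem adjoin_sub {A : Type} [CommRing A] [Algebra ℂ A] (s : Set A) (S : Submodule ℂ A)
    (h1 : (1 : A) ∈ S) (hs : ∀ a ∈ s, ∀ z ∈ S, a * z ∈ S) {z : A}
    (hz : z ∈ Algebra.adjoin ℂ s) : z ∈ S := by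
  have h2 : ∀ a ∈ Algebra.adjoin ℂ s, ∀ z ∈ S, a * z ∈ S := by
    intro a ha
    induction ha using Algebra.adjoin_induction with
    | mem a ha => exact hs a ha
    | algebraMap r =>
      intro z hz
      rw [← Algebra.smul_def]
      exact S.smul_mem r hz
    | add a b _ _ h1 h2 =>
      intro z hz
      rw [add_mul]
      exact add_mem (h1 z hz) (h2 z hz)
    | mul a b _ _ h1 h2 =>
      intro z hz
      rw [mul_assoc]
      exact h1 _ (h2 z hz)
  have := h2 z hz 1 h1
  rwa [mul_one] at this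

theorem algebraMap_mul_mem {A : Type} [CommRing A] [Algebra ℂ A] (S : Submodule ℂ A) (r : ℂ)
    {u : A} (hu : u ∈ S) : algebraMap ℂ A r * u ∈ S := by
  rw [← Algebra.smul_def]
  exact S.smul_mem r hu

/-- the plane curve data -/
structure PD (K : Type) [Field K] [Algebra ℂ K] where
  x : K
  y : K
  w : K
  a : ℂ
  b : ℂ
  c : ℂ
  d : ℂ
  ha : a ≠ 0
  hb : b ≠ 0
  hc : c ≠ 0
  hd : d ≠ 0
  hD : a * d - b * c ≠ 0
  hx : x ≠ 0
  hy : y ≠ 0
  eqn : w ^ 2 = algebraMap ℂ K a + algebraMap ℂ K b * x ^ 2 + algebraMap ℂ K c * y ^ 2 +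
    algebraMap ℂ K d * (x ^ 2 * y ^ 2)
  indep : LinearIndependent ℂ
    (fun p : ℤ × ℤ × Fin 2 => x ^ p.1 * y ^ p.2.1 * w ^ (p.2.2 : ℕ))
  th : K → K → K
  th_add : ∀ a b c, th a (b + c) = th a b + th a c
  th_mul : ∀ a b c, th a (b * c) = b * th a c + c * th a b
  th_const : ∀ a (c : ℂ), th a (algebraMap ℂ K c) = 0
  th_swap : ∀ a b, th a b = - th b a
  th_xy : th x y = 2 * w

namespace PD

variable {K : Type} [Field K] [Algebra ℂ K] (D : PD K)

/-- the monomial basis -/
def v (p : ℤ × ℤ × Fin 2) : K := D.x ^ p.1 * D.y ^ p.2.1 * D.w ^ (p.2.2 : ℕ)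

/-- the coordinate ring -/
def B : Subalgebra ℂ K := Algebra.adjoin ℂ {D.x, D.y, D.w}

theorem x_mem : D.x ∈ D.B := Algebra.subset_adjoin (by simp)
theorem y_mem : D.y ∈ D.B := Algebra.subset_adjoin (by simp)
theorem w_mem : D.w ∈ D.B := Algebra.subset_adjoin (by simp)

/-- comparison map -/
def toK : QR D.a D.b D.c D.d →ₐ[ℂ] K := QR.lift D.a D.b D.c D.d ![D.x, D.y, D.w] D.eqn

/-- generators of the quotient ring -/
def gen (i : Fin 3) : QR D.a D.b D.c D.d := Ideal.Quotient.mkₐ ℂ _ (MvPolynomial.X i)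

theorem toK_gen (i : Fin 3) : D.toK (D.gen i) = ![D.x, D.y, D.w] i := QR.lift_X _ _ _ _ _ _ i

/-- monomials in the quotient ring -/
def mono (p : ℕ × ℕ × Fin 2) : QR D.a D.b D.c D.d :=
  D.gen 0 ^ p.1 * D.gen 1 ^ p.2.1 * D.gen 2 ^ (p.2.2 : ℕ)

theorem gen_eqn : D.gen 2 ^ 2 = algebraMap ℂ _ D.a + algebraMap ℂ _ D.b * D.gen 0 ^ 2 +
    algebraMap ℂ _ D.c * D.gen 1 ^ 2 + algebraMap ℂ _ D.d * (D.gen 0 ^ 2 * D.gen 1 ^ 2) := by
  have h : Ideal.Quotient.mkₐ ℂ (Ideal.span {FP D.a D.b D.c D.d}) (FP D.a D.b D.c D.d) = 0 :=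
    Ideal.Quotient.eq_zero_iff_mem.2 (Ideal.subset_span rfl)
  have h2 := aeval_FP D.a D.b D.c D.d (A := QR D.a D.b D.c D.d) D.gen
  have h3 : MvPolynomial.aeval D.gen = Ideal.Quotient.mkₐ ℂ (Ideal.span {FP D.a D.b D.c D.d}) := by
    apply MvPolynomial.algHom_ext
    intro i
    simp [gen]
  rw [h3, h] at h2
  exact (sub_eq_zero.1 h2.symm)

theorem adjoin_gen : Algebra.adjoin ℂ (Set.range D.gen) = ⊤ := by
  have h1 : (Algebra.adjoin ℂ (Set.range (MvPolynomial.X : Fin 3 → MvPolynomial (Fin 3) ℂ))) = ⊤ :=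
    MvPolynomial.adjoin_range_X
  have h2 : Set.range D.gen = (Ideal.Quotient.mkₐ ℂ (Ideal.span {FP D.a D.b D.c D.d})) ''
      Set.range MvPolynomial.X := by
    rw [← Set.range_comp]; rfl
  rw [h2, ← AlgHom.map_adjoin, h1, Algebra.map_top, AlgHom.range_eq_top]
  exact Ideal.Quotient.mkₐ_surjective ℂ _

theorem span_mono : Submodule.span ℂ (Set.range D.mono) = ⊤ := by
  rw [eq_top_iff]
  rintro z -
  have hz : z ∈ Algebra.adjoin ℂ (Set.range D.gen) := by rw [D.adjoin_gen]; trivial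
  refine adjoin_sub _ _ ?_ ?_ hz
  · refine Submodule.subset_span ⟨(0, 0, 0), ?_⟩
    simp [mono]
  · rintro _ ⟨i, rfl⟩ z hz
    refine Submodule.span_induction (p := fun z _ => D.gen i * z ∈ Submodule.span ℂ
      (Set.range D.mono)) ?_ ?_ ?_ ?_ hz
    · rintro _ ⟨⟨m, n, e⟩, rfl⟩
      fin_cases i
      · change D.gen 0 * _ ∈ _
        refine Submodule.subset_span ⟨(m + 1, n, e), ?_⟩
        simp only [mono]; ring
      · change D.gen 1 * _ ∈ _
        refine Submodule.subset_span ⟨(m, n + 1, e), ?_⟩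
        simp only [mono]; ring
      · fin_cases e
        · refine Submodule.subset_span ⟨(m, n, 1), ?_⟩
          simp [mono]; ring
        · have h : D.gen 2 * D.mono (m, n, 1) = algebraMap ℂ _ D.a * D.mono (m, n, 0) +
              algebraMap ℂ _ D.b * D.mono (m + 2, n, 0) +
              algebraMap ℂ _ D.c * D.mono (m, n + 2, 0) +
              algebraMap ℂ _ D.d * D.mono (m + 2, n + 2, 0) := by
            simp only [mono, Fin.val_zero, Fin.val_one, pow_zero, pow_one]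
            linear_combination D.gen 0 ^ m * D.gen 1 ^ n * D.gen_eqn
          change D.gen 2 * D.mono (m, n, 1) ∈ _
          rw [h]
          exact add_mem (add_mem (add_mem
            (algebraMap_mul_mem _ _ (Submodule.subset_span ⟨_, rfl⟩))
            (algebraMap_mul_mem _ _ (Submodule.subset_span ⟨_, rfl⟩)))
            (algebraMap_mul_mem _ _ (Submodule.subset_span ⟨_, rfl⟩)))
            (algebraMap_mul_mem _ _ (Submodule.subset_span ⟨_, rfl⟩))
    · simp
    · intro u v _ _ h1 h2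
      rw [mul_add]; exact add_mem h1 h2
    · intro r u _ h1
      rw [mul_smul_comm]; exact Submodule.smul_mem _ _ h1

theorem toK_mono (p : ℕ × ℕ × Fin 2) : D.toK (D.mono p) = D.v (p.1, p.2.1, p.2.2) := by
  simp only [mono, map_mul, map_pow, toK_gen, v, zpow_natCast]
  rfl

theorem toK_injective : Function.Injective D.toK := by
  rw [injective_iff_map_eq_zero]
  intro z hz
  have h1 : z ∈ Submodule.span ℂ (Set.range D.mono) := by rw [D.span_mono]; trivial
  obtain ⟨c, rfl⟩ := (Finsupp.mem_span_range_iff_exists_finsupp).1 h1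
  have h2 : LinearIndependent ℂ (fun p : ℕ × ℕ × Fin 2 => D.v (p.1, p.2.1, p.2.2)) := by
    refine D.indep.comp (fun p : ℕ × ℕ × Fin 2 => ((p.1 : ℤ), ((p.2.1 : ℤ), p.2.2))) ?_
    rintro ⟨m, n, e⟩ ⟨m', n', e'⟩ h
    simpa using h
  have h3 : Finsupp.linearCombination ℂ (fun p : ℕ × ℕ × Fin 2 => D.v (p.1, p.2.1, p.2.2)) c = 0 := by
    rw [← hz, Finsupp.linearCombination_apply, map_finsuppSum]
    refine Finsupp.sum_congr fun p _ => ?_
    rw [map_smul, toK_mono]
  have h4 : c = 0 := linearIndependent_iff.1 h2 c h3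
  rw [h4]; simp

theorem toK_range : D.toK.range = D.B := by
  have h1 : D.toK.range = (⊤ : Subalgebra ℂ _).map D.toK := by rw [Algebra.map_top]
  rw [h1, ← D.adjoin_gen, AlgHom.map_adjoin, ← Set.range_comp]
  have h2 : Set.range (D.toK ∘ D.gen) = {D.x, D.y, D.w} := by
    ext z
    simp only [Set.mem_range, Function.comp_apply, toK_gen, Fin.exists_fin_succ]
    simp [eq_comm]
  rw [h2]
  rfl

theorem smooth : Algebra.Smooth ℂ D.B := by
  have h1 := QR.smooth D.a D.b D.c D.d D.ha D.hD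
  have e1 : QR D.a D.b D.c D.d ≃ₐ[ℂ] D.toK.range := AlgEquiv.ofInjective D.toK D.toK_injective
  have e2 : D.toK.range ≃ₐ[ℂ] D.B := Subalgebra.equivOfEq _ _ D.toK_range
  exact Algebra.Smooth.of_equiv (e1.trans e2)

end PD

end

end Pool.Agent.Helper49.Fano
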