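import Pool.Agent.Helper49.Fano.ChartB

set_option autoImplicit false


namespace Pool.Agent.Helper49.Fano

noncomputable section

namespace PD

variable {K : Type} [Field K] [Algebra ℂ K] (D : PD K)

theorem two_ne : (2 : K) ≠ 0 := by
  rw [show (2 : K) = algebraMap ℂ K 2 by rw [map_ofNat]]
  exact (map_ne_zero (algebraMap ℂ K)).2 two_ne_zero

theorem hw : D.w ≠ 0 := by
  have := D.indep.ne_zero (0, 0, 1)
  simpa using this

theorem th_self (p : K) : D.th p p = 0 := by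
  have h := D.th_swap p p
  have h2 : (2 : K) * D.th p p = 0 := by linear_combination h
  exact (mul_eq_zero.1 h2).resolve_left two_ne

theorem th_one (p : K) : D.th p 1 = 0 := by
  have := D.th_const p 1
  rwa [map_one] at this

theorem th_zero (p : K) : D.th p 0 = 0 := by
  have := D.th_const p 0
  rwa [map_zero] at this

theorem th_inv (p : K) {q : K} (hq : q ≠ 0) : D.th p q⁻¹ = - (q⁻¹ ^ 2 * D.th p q) := by
  have h := D.th_mul p q q⁻¹
  rw [mul_inv_cancel₀ hq, th_one] at h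
  have h2 : q * (D.th p q⁻¹ + q⁻¹ ^ 2 * D.th p q) = 0 := by
    have h3 : q * q⁻¹ = 1 := mul_inv_cancel₀ hq
    linear_combination -h + q⁻¹ * D.th p q * h3
  rcases mul_eq_zero.1 h2 with h3 | h3
  · exact absurd h3 hq
  · linear_combination h3

theorem th_smul (p : K) (r : ℂ) (q : K) : D.th p (algebraMap ℂ K r * q) =
    algebraMap ℂ K r * D.th p q := by
  rw [D.th_mul, D.th_const, mul_zero, add_zero]

theorem th_sq (p q : K) : D.th p (q ^ 2) = 2 * q * D.th p q := by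
  rw [pow_two, D.th_mul]; ring

theorem th_yw : D.th D.y D.w = -2 * D.x * (algebraMap ℂ K D.b + algebraMap ℂ K D.d * D.y ^ 2) := by
  have h := D.th_sq D.y D.w
  rw [D.eqn, D.th_add, D.th_add, D.th_add, D.th_const, D.th_smul, D.th_smul, D.th_smul, D.th_mul,
    D.th_sq, D.th_sq, D.th_self, D.th_swap D.y D.x, D.th_xy] at h
  have h2 : (2 * D.w) * (D.th D.y D.w + 2 * D.x * (algebraMap ℂ K D.b +
      algebraMap ℂ K D.d * D.y ^ 2)) = 0 := by linear_combination -h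
  rcases mul_eq_zero.1 h2 with h3 | h3
  · exact absurd h3 (mul_ne_zero two_ne D.hw)
  · linear_combination h3

theorem th_wx : D.th D.w D.x = -2 * D.y * (algebraMap ℂ K D.c + algebraMap ℂ K D.d * D.x ^ 2) := by
  have h := D.th_sq D.x D.w
  rw [D.eqn, D.th_add, D.th_add, D.th_add, D.th_const, D.th_smul, D.th_smul, D.th_smul, D.th_mul,
    D.th_sq, D.th_sq, D.th_self, D.th_xy] at h
  have h2 : (2 * D.w) * (D.th D.x D.w - 2 * D.y * (algebraMap ℂ K D.c +
      algebraMap ℂ K D.d * D.x ^ 2)) = 0 := by linear_combination -h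
  rcases mul_eq_zero.1 h2 with h3 | h3
  · exact absurd h3 (mul_ne_zero two_ne D.hw)
  · rw [D.th_swap]; linear_combination -h3

theorem unit_rel : (2 : K) * algebraMap ℂ K (D.a * (D.a * D.d - D.b * D.c)) =
    (D.w * (algebraMap ℂ K (D.a * D.d - D.b * D.c) - algebraMap ℂ K (D.b * D.d) * D.x ^ 2)) *
      D.th D.x D.y + (algebraMap ℂ K (D.a * D.d - D.b * D.c) * D.y) * D.th D.w D.x -
      (algebraMap ℂ K D.b * D.x * (algebraMap ℂ K D.d * D.x ^ 2 + algebraMap ℂ K D.c)) *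
        D.th D.y D.w := by
  rw [D.th_xy, D.th_wx, D.th_yw]
  simp only [map_mul, map_sub]
  linear_combination (-2) * (algebraMap ℂ K D.a * algebraMap ℂ K D.d - algebraMap ℂ K D.b *
    algebraMap ℂ K D.c - algebraMap ℂ K D.b * algebraMap ℂ K D.d * D.x ^ 2) * D.eqn

theorem const_mem (r : ℂ) : algebraMap ℂ K r ∈ D.B := D.B.algebraMap_mem r

theorem th_xy_mem : D.th D.x D.y ∈ D.B := by
  rw [D.th_xy]
  have : (2 : K) = algebraMap ℂ K 2 := by rw [map_ofNat]
  rw [this]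
  exact mul_mem (D.const_mem _) D.w_mem

theorem th_yw_mem : D.th D.y D.w ∈ D.B := by
  rw [D.th_yw]
  have : (-2 : K) = algebraMap ℂ K (-2) := by rw [map_neg, map_ofNat]
  rw [this]
  exact mul_mem (mul_mem (D.const_mem _) D.x_mem) (add_mem (D.const_mem _)
    (mul_mem (D.const_mem _) (pow_mem D.y_mem 2)))

theorem th_wx_mem : D.th D.w D.x ∈ D.B := by
  rw [D.th_wx]
  have : (-2 : K) = algebraMap ℂ K (-2) := by rw [map_neg, map_ofNat]
  rw [this]
  exact mul_mem (mul_mem (D.const_mem _) D.y_mem) (add_mem (D.const_mem _)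
    (mul_mem (D.const_mem _) (pow_mem D.x_mem 2)))

theorem th_mem_aux (p : K) (hx : D.th p D.x ∈ D.B) (hy : D.th p D.y ∈ D.B)
    (hw : D.th p D.w ∈ D.B) {q : K} (hq : q ∈ D.B) : D.th p q ∈ D.B := by
  have hq' : q ∈ Algebra.adjoin ℂ {D.x, D.y, D.w} := hq
  induction hq' using Algebra.adjoin_induction with
  | mem a ha =>
    rcases ha with rfl | rfl | rfl
    · exact hx
    · exact hy
    · exact hw
  | algebraMap r => rw [D.th_const]; exact zero_mem _
  | add a b ha hb h1 h2 => rw [D.th_add]; exact add_mem (h1 ha) (h2 hb)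
  | mul a b ha hb h1 h2 =>
    rw [D.th_mul]
    exact add_mem (mul_mem ha (h2 hb)) (mul_mem hb (h1 ha))

theorem th_mem {p q : K} (hp : p ∈ D.B) (hq : q ∈ D.B) : D.th p q ∈ D.B := by
  have hs : ∀ p q, D.th p q ∈ D.B → D.th q p ∈ D.B := by
    intro p q h
    rw [D.th_swap]
    exact neg_mem h
  have h0 : ∀ p, D.th p p ∈ D.B := fun p => by rw [D.th_self]; exact zero_mem _
  have h1 : ∀ q ∈ D.B, D.th D.x q ∈ D.B := fun q hq =>
    D.th_mem_aux _ (h0 _) D.th_xy_mem (hs _ _ D.th_wx_mem) hq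
  have h2 : ∀ q ∈ D.B, D.th D.y q ∈ D.B := fun q hq =>
    D.th_mem_aux _ (hs _ _ D.th_xy_mem) (h0 _) D.th_yw_mem hq
  have h3 : ∀ q ∈ D.B, D.th D.w q ∈ D.B := fun q hq =>
    D.th_mem_aux _ D.th_wx_mem (hs _ _ D.th_yw_mem) (h0 _) hq
  exact hs _ _ (D.th_mem_aux q (hs _ _ (h1 q hq)) (hs _ _ (h2 q hq)) (hs _ _ (h3 q hq)) hp)

section Loc

variable (O : Subring K)

/-- `O` is a local ring of the surface in the chart. -/
structure IsLocOf : Prop where
  le : ∀ z ∈ D.B, z ∈ O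
  frac : ∀ z ∈ O, ∃ p ∈ D.B, ∃ q ∈ D.B, q ≠ 0 ∧ q⁻¹ ∈ O ∧ z = p / q
  loc : ∀ u ∈ O, ∀ v ∈ O, u + v ≠ 0 → (u + v)⁻¹ ∈ O → (u ≠ 0 ∧ u⁻¹ ∈ O) ∨ (v ≠ 0 ∧ v⁻¹ ∈ O)

variable {D O}

theorem IsLocOf.th_mem (h : D.IsLocOf O) {u v : K} (hu : u ∈ O) (hv : v ∈ O) : D.th u v ∈ O := by
  have key : ∀ p : K, (∀ z ∈ D.B, D.th p z ∈ O) → ∀ z ∈ O, D.th p z ∈ O := by
    intro p hp z hz
    obtain ⟨a, ha, b, hb, hb0, hbi, rfl⟩ := h.frac z hz
    rw [div_eq_mul_inv, D.th_mul, D.th_inv _ hb0]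
    exact add_mem (mul_mem (h.le _ ha) (neg_mem (mul_mem (pow_mem hbi 2) (hp b hb))))
      (mul_mem hbi (hp a ha))
  have k1 : ∀ p ∈ D.B, ∀ z ∈ O, D.th p z ∈ O := fun p hp => key p (fun z hz =>
    h.le _ (D.th_mem hp hz))
  have k2 : ∀ z ∈ D.B, D.th u z ∈ O := by
    intro z hz
    rw [D.th_swap]
    exact neg_mem (k1 z hz u hu)
  exact key u k2 v hv

omit [Algebra ℂ K] in
theorem mul_unit {O : Subring K} {u v : K} (hu : u ∈ O) (_hv : v ∈ O) (h0 : u * v ≠ 0)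
    (hi : (u * v)⁻¹ ∈ O) : v ≠ 0 ∧ v⁻¹ ∈ O := by
  refine ⟨right_ne_zero_of_mul h0, ?_⟩
  have h1 : v⁻¹ = u * (u * v)⁻¹ := by
    have hu0 : u ≠ 0 := left_ne_zero_of_mul h0
    have hv0 : v ≠ 0 := right_ne_zero_of_mul h0
    field_simp
  rw [h1]
  exact mul_mem hu hi

theorem IsLocOf.exists_unit (h : D.IsLocOf O) : ∃ u ∈ O, ∃ v ∈ O, D.th u v ≠ 0 ∧
    (D.th u v)⁻¹ ∈ O := by
  have hc : ∀ r : ℂ, algebraMap ℂ K r ∈ O := fun r => h.le _ (D.const_mem r)
  have hx := h.le _ D.x_mem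
  have hy := h.le _ D.y_mem
  have hw := h.le _ D.w_mem
  have hr := D.unit_rel
  set A := D.w * (algebraMap ℂ K (D.a * D.d - D.b * D.c) - algebraMap ℂ K (D.b * D.d) * D.x ^ 2)
    with hA
  set B := algebraMap ℂ K (D.a * D.d - D.b * D.c) * D.y with hB
  set C := algebraMap ℂ K D.b * D.x * (algebraMap ℂ K D.d * D.x ^ 2 + algebraMap ℂ K D.c) with hC
  have hAm : A ∈ O := mul_mem hw (sub_mem (hc _) (mul_mem (hc _) (pow_mem hx 2)))
  have hBm : B ∈ O := mul_mem (hc _) hy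
  have hCm : C ∈ O := mul_mem (mul_mem (hc _) hx) (add_mem (mul_mem (hc _) (pow_mem hx 2)) (hc _))
  have t1 := h.th_mem hx hy
  have t2 := h.th_mem hw hx
  have t3 := h.th_mem hy hw
  have hL : (2 : K) * algebraMap ℂ K (D.a * (D.a * D.d - D.b * D.c)) =
      algebraMap ℂ K (2 * (D.a * (D.a * D.d - D.b * D.c))) := by
    rw [map_mul (algebraMap ℂ K) 2, map_ofNat]
  have hL0 : (2 : ℂ) * (D.a * (D.a * D.d - D.b * D.c)) ≠ 0 :=
    mul_ne_zero two_ne_zero (mul_ne_zero D.ha D.hD)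
  have hsum : A * D.th D.x D.y + (B * D.th D.w D.x + (-C) * D.th D.y D.w) =
      algebraMap ℂ K (2 * (D.a * (D.a * D.d - D.b * D.c))) := by
    rw [← hL, hr]; ring
  have hne : A * D.th D.x D.y + (B * D.th D.w D.x + (-C) * D.th D.y D.w) ≠ 0 := by
    rw [hsum]; exact (map_ne_zero (algebraMap ℂ K)).2 hL0
  have hinv : (A * D.th D.x D.y + (B * D.th D.w D.x + (-C) * D.th D.y D.w))⁻¹ ∈ O := by
    rw [hsum, ← map_inv₀]; exact hc _
  rcases h.loc _ (mul_mem hAm t1) _ (add_mem (mul_mem hBm t2) (mul_mem (neg_mem hCm) t3)) hne hinv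
    with ⟨h1, h2⟩ | ⟨h1, h2⟩
  · obtain ⟨h3, h4⟩ := mul_unit hAm t1 h1 h2
    exact ⟨_, hx, _, hy, h3, h4⟩
  · rcases h.loc _ (mul_mem hBm t2) _ (mul_mem (neg_mem hCm) t3) h1 h2 with ⟨h1, h2⟩ | ⟨h1, h2⟩
    · obtain ⟨h3, h4⟩ := mul_unit hBm t2 h1 h2
      exact ⟨_, hw, _, hx, h3, h4⟩
    · obtain ⟨h3, h4⟩ := mul_unit (neg_mem hCm) t3 h1 h2
      exact ⟨_, hy, _, hw, h3, h4⟩

end Loc

/-- A bracket which vanishes on `x, y` is zero. -/
theorem vanish (h : ∀ z : K, ∃ p ∈ D.B, ∃ q ∈ D.B, q ≠ 0 ∧ z = p / q) (t : K → K → K)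
    (t_add : ∀ a b c, t a (b + c) = t a b + t a c)
    (t_mul : ∀ a b c, t a (b * c) = b * t a c + c * t a b)
    (t_const : ∀ a (c : ℂ), t a (algebraMap ℂ K c) = 0)
    (t_swap : ∀ a b, t a b = - t b a) (hxy : t D.x D.y = 0) (u v : K) : t u v = 0 := by
  have t_self : ∀ p, t p p = 0 := by
    intro p
    have h2 : (2 : K) * t p p = 0 := by linear_combination t_swap p p
    exact (mul_eq_zero.1 h2).resolve_left two_ne
  have t_sq : ∀ p q, t p (q ^ 2) = 2 * q * t p q := by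
    intro p q
    rw [pow_two, t_mul]; ring
  have t_smul : ∀ (p : K) (r : ℂ) (q : K), t p (algebraMap ℂ K r * q) =
      algebraMap ℂ K r * t p q := by
    intro p r q
    rw [t_mul, t_const, mul_zero, add_zero]
  have hyx : t D.y D.x = 0 := by rw [t_swap, hxy, neg_zero]
  have hw : ∀ p, t p D.x = 0 → t p D.y = 0 → t p D.w = 0 := by
    intro p hpx hpy
    have h1 := t_sq p D.w
    rw [D.eqn, t_add, t_add, t_add, t_const, t_smul, t_smul, t_smul, t_mul, t_sq, t_sq, hpx,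
      hpy] at h1
    have h2 : (2 * D.w) * t p D.w = 0 := by linear_combination -h1
    exact (mul_eq_zero.1 h2).resolve_left (mul_ne_zero two_ne D.hw)
  have key : ∀ p, t p D.x = 0 → t p D.y = 0 → ∀ z, t p z = 0 := by
    intro p hpx hpy
    have hB : ∀ q ∈ D.B, t p q = 0 := by
      intro q hq
      have hq' : q ∈ Algebra.adjoin ℂ {D.x, D.y, D.w} := hq
      induction hq' using Algebra.adjoin_induction with
      | mem a ha =>
        rcases ha with rfl | rfl | rfl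
        · exact hpx
        · exact hpy
        · exact hw p hpx hpy
      | algebraMap r => exact t_const _ _
      | add a b ha hb h1 h2 => rw [t_add, h1 ha, h2 hb, add_zero]
      | mul a b ha hb h1 h2 => rw [t_mul, h2 hb, h1 ha, mul_zero, mul_zero, add_zero]
    intro z
    obtain ⟨a, ha, b, hb, hb0, rfl⟩ := h z
    have h1 := t_mul p b (a / b)
    rw [mul_div_cancel₀ _ hb0, hB a ha, hB b hb, mul_zero, add_zero] at h1
    exact (mul_eq_zero.1 h1.symm).resolve_left hb0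
  have kx : ∀ z, t z D.x = 0 := fun z => by
    rw [t_swap, key D.x (t_self _) hxy z, neg_zero]
  have ky : ∀ z, t z D.y = 0 := fun z => by
    rw [t_swap, key D.y hyx (t_self _) z, neg_zero]
  exact key u (kx u) (ky u) v

/-- Uniqueness of the bracket. -/
theorem unique (h : ∀ z : K, ∃ p ∈ D.B, ∃ q ∈ D.B, q ≠ 0 ∧ z = p / q) (t : K → K → K)
    (t_add : ∀ a b c, t a (b + c) = t a b + t a c)
    (t_mul : ∀ a b c, t a (b * c) = b * t a c + c * t a b)
    (t_const : ∀ a (c : ℂ), t a (algebraMap ℂ K c) = 0)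
    (t_swap : ∀ a b, t a b = - t b a) (u v : K) :
    t u v = (t D.x D.y / (2 * D.w)) * D.th u v := by
  have h1 := D.vanish h (fun u v => t u v - (t D.x D.y / (2 * D.w)) * D.th u v)
    (by intro a b c; rw [t_add, D.th_add]; ring)
    (by intro a b c; rw [t_mul, D.th_mul]; ring)
    (by intro a c; rw [t_const, D.th_const]; ring)
    (by intro a b; rw [t_swap, D.th_swap]; ring)
    (by
      rw [D.th_xy]
      rw [div_mul_cancel₀ _ (mul_ne_zero (two_ne (K := K)) D.hw), sub_self]) u v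
  linear_combination h1

end PD

end

end Pool.Agent.Helper49.Fano
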