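import Pool.Agent.Helper49.Fano.Graded

set_option autoImplicit false

open Polynomial HomogeneousLocalization

namespace Pool.Agent.Helper49.Fano

noncomputable section

variable {K : Type} [Field K] [Algebra ℂ K] {ι : Type} (g : ι → K)

/-- the embedding of `(A_f)_0` into `K` -/
def psi {m : ℕ} {f : secRing g} (hf : f ∈ gr g m) (h0 : f ≠ 0) : Away (gr g) f →+* K :=
  (IsLocalization.Away.lift (S := Localization.Away f) f
    (g := ev g) (isUnit_iff_ne_zero.2 (ev_ne_zero g hf h0))).comp
    (algebraMap (Away (gr g) f) (Localization.Away f))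

theorem psi_mk {m : ℕ} {f : secRing g} (hf : f ∈ gr g m) (h0 : f ≠ 0) {m' : ℕ}
    (hf' : f ∈ gr g m') (n : ℕ) (a : secRing g)
    (ha : a ∈ gr g (n • m')) :
    psi g hf h0 (Away.mk (gr g) hf' n a ha) = ev g a / ev g f ^ n := by
  have h1 : ev g f ≠ 0 := ev_ne_zero g hf h0
  change IsLocalization.Away.lift (S := Localization.Away f) f
    (g := ev g) (isUnit_iff_ne_zero.2 h1) (Localization.mk a ⟨f ^ n, by use n⟩) = _
  rw [Localization.mk_eq_mk', IsLocalization.Away.lift, IsLocalization.lift_mk'_spec]
  change ev g a = ev g (f ^ n) * _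
  rw [map_pow]
  field_simp

theorem psi_injective {m : ℕ} {f : secRing g} (hf : f ∈ gr g m) (h0 : f ≠ 0) :
    Function.Injective (psi g hf h0) := by
  rw [injective_iff_map_eq_zero]
  intro z hz
  obtain ⟨n, a, ha, rfl⟩ := Away.mk_surjective (gr g) hf z
  rw [psi_mk] at hz
  have h1 : ev g f ≠ 0 := ev_ne_zero g hf h0
  have h2 : ev g a = 0 := by
    rcases div_eq_zero_iff.1 hz with h | h
    · exact h
    · exact absurd h (pow_ne_zero _ h1)
  have h3 : a = 0 := by
    by_contra h
    exact ev_ne_zero g ha h h2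
  subst h3
  ext
  rw [Away.val_mk, val_zero, Localization.mk_zero]

theorem psi_awayMap {m m' : ℕ} {f f' x : secRing g} (hf : f ∈ gr g m) (h0 : f ≠ 0)
    (hf' : f' ∈ gr g m') (hx : x = f * f') (h0' : f' ≠ 0)
    (hxm : x ∈ gr g (m + m')) (hx0 : x ≠ 0) (z : Away (gr g) f) :
    psi g hxm hx0 (awayMap (gr g) hf' hx z) = psi g hf h0 z := by
  obtain ⟨n, a, ha, rfl⟩ := Away.mk_surjective (gr g) hf z
  rw [awayMap_mk, psi_mk, psi_mk, hx]
  have h1 : ev g f ≠ 0 := ev_ne_zero g hf h0
  have h2 : ev g f' ≠ 0 := ev_ne_zero g hf' h0'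
  simp only [map_mul, map_pow, mul_pow]
  field_simp

theorem psi_fromZero {m : ℕ} {f : secRing g} (hf : f ∈ gr g m) (h0 : f ≠ 0) (a : gr g 0) :
    psi g hf h0 (fromZeroRingHom (gr g) _ a) = ev g a := by
  have h1 : (fromZeroRingHom (gr g) (Submonoid.powers f) a) =
      Away.mk (gr g) hf 0 a (by rw [zero_smul]; exact a.2) := by
    ext
    simp only [Away.val_mk]
    rfl
  rw [h1, psi_mk]
  simp

/-- the chart algebra `ℂ[g_j / g_i]` -/
def chart (i : ι) : Subalgebra ℂ K := Algebra.adjoin ℂ (Set.range fun j => g j / g i)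

theorem mem_spanW (i : ι) : g i ∈ spanW g := Submodule.subset_span ⟨i, rfl⟩

/-- the element `g_i T` -/
def lin (i : ι) : secRing g := mon g 1 (g i) (by rw [pow_one]; exact mem_spanW g i)

theorem lin_mem (i : ι) : lin g i ∈ gr g 1 := mon_mem g _ _ _

theorem ev_lin (i : ι) : ev g (lin g i) = g i := ev_mon g _ _ _

theorem lin_ne_zero {i : ι} (h : g i ≠ 0) : lin g i ≠ 0 := by
  intro h1
  apply h
  rw [← ev_lin g i, h1, map_zero]

theorem pow_div_mem_chart {i : ι} (h : g i ≠ 0) {n : ℕ} {c : K} (hc : c ∈ spanW g ^ n) :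
    c / g i ^ n ∈ chart g i := by
  induction hc using Submodule.pow_induction_on_left' with
  | algebraMap r => simpa using (chart g i).algebraMap_mem r
  | add x y n hx hy h1 h2 => rw [add_div]; exact add_mem h1 h2
  | mem_mul m hm n x hx h1 =>
    rw [pow_succ', mul_div_mul_comm]
    refine mul_mem ?_ h1
    have h2 : m ∈ spanW g := hm
    refine Submodule.span_induction (p := fun m _ => m / g i ∈ chart g i) ?_ ?_ ?_ ?_ h2
    · rintro _ ⟨j, rfl⟩
      exact Algebra.subset_adjoin ⟨j, rfl⟩
    · simp
    · intro x y _ _ hx hy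
      rw [add_div]; exact add_mem hx hy
    · intro a x _ hx
      rw [smul_div_assoc]
      exact (chart g i).smul_mem hx a

theorem algebraMap_mem_gr (c : ℂ) : algebraMap ℂ (secRing g) c ∈ gr g 0 := by
  intro i hi
  change (algebraMap ℂ K[X] c).coeff i = 0
  rw [show (algebraMap ℂ K[X] c) = C (algebraMap ℂ K c) from rfl, coeff_C, if_neg hi]

/-- the structure map `ℂ → A_0` -/
def phi0 : ℂ →+* gr g 0 where
  toFun c := ⟨algebraMap ℂ (secRing g) c, algebraMap_mem_gr g c⟩
  map_one' := by apply Subtype.ext; exact map_one _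
  map_mul' a b := by apply Subtype.ext; exact map_mul _ _ _
  map_zero' := by apply Subtype.ext; exact map_zero _
  map_add' a b := by apply Subtype.ext; exact map_add _ _ _

theorem ev_algebraMap (c : ℂ) : ev g (algebraMap ℂ (secRing g) c) = algebraMap ℂ K c := by
  change Polynomial.eval 1 (algebraMap ℂ K[X] c) = _
  rw [show (algebraMap ℂ K[X] c) = C (algebraMap ℂ K c) from rfl, eval_C]

theorem psi_const {m : ℕ} {f : secRing g} (hf : f ∈ gr g m) (h0 : f ≠ 0) (c : ℂ) :
    psi g hf h0 (fromZeroRingHom (gr g) _ (phi0 g c)) = algebraMap ℂ K c := by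
  rw [psi_fromZero]
  exact ev_algebraMap g c

/-- the chart at `g_i` is isomorphic to `(A_f)_0`, `f = g_i T` -/
theorem psi_range {i : ι} (h : g i ≠ 0) (z : K) :
    z ∈ chart g i ↔ ∃ a, psi g (lin_mem g i) (lin_ne_zero g h) a = z := by
  constructor
  · intro hz
    let R : Subalgebra ℂ K :=
      { (psi g (lin_mem g i) (lin_ne_zero g h)).range with
        algebraMap_mem' := fun c => ⟨_, psi_const g _ _ c⟩ }
    have : chart g i ≤ R := by
      apply Algebra.adjoin_le
      rintro _ ⟨j, rfl⟩
      refine ⟨Away.mk (gr g) (lin_mem g i) 1 (lin g j) (by simpa using lin_mem g j), ?_⟩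
      rw [psi_mk, ev_lin, ev_lin, pow_one]
    exact this hz
  · rintro ⟨a, rfl⟩
    obtain ⟨n, a, ha, rfl⟩ := Away.mk_surjective (gr g) (lin_mem g i) a
    rw [psi_mk, ev_lin, eq_mon g ha, ev_mon]
    apply pow_div_mem_chart g h
    have := (eq_mon g ha)
    have h2 := a.2 n
    simpa using (a.2 (n • 1))

theorem closure_eq_top : Subring.closure (Set.range (fun r => (phi0 g r : secRing g)) ∪
    Set.range (lin g)) = ⊤ := by
  set R := Subring.closure (Set.range (fun r => (phi0 g r : secRing g)) ∪
    Set.range (lin g)) with hR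
  have key : ∀ (n : ℕ) (c : K) (hc : c ∈ spanW g ^ n), mon g n c hc ∈ R := by
    intro n c hc
    induction hc using Submodule.pow_induction_on_left' with
    | algebraMap r =>
      have : mon g 0 (algebraMap ℂ K r) (by rw [pow_zero]; exact Submodule.mem_one.mpr ⟨r, rfl⟩) =
          (phi0 g r : secRing g) := by
        apply Subtype.ext
        change monomial 0 _ = algebraMap ℂ K[X] r
        rfl
      rw [this]
      exact Subring.subset_closure (Or.inl ⟨r, rfl⟩)
    | add x y n hx hy h1 h2 =>
      have : mon g n (x + y) (add_mem hx hy) = mon g n x hx + mon g n y hy := by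
        apply Subtype.ext
        change monomial n _ = monomial n _ + monomial n _
        rw [map_add]
      rw [this]
      exact add_mem h1 h2
    | mem_mul m hm n x hx h1 =>
      have hm1 : m ∈ spanW g ^ 1 := by rw [pow_one]; exact hm
      have : mon g (n + 1) (m * x) (by rw [pow_succ']; exact Submodule.mul_mem_mul hm hx) =
          mon g 1 m hm1 * mon g n x hx := by
        apply Subtype.ext
        change monomial (n+1) _ = monomial 1 _ * monomial n _
        rw [monomial_mul_monomial, add_comm]
      rw [this]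
      refine mul_mem ?_ h1
      refine Submodule.span_induction (p := fun m hm => mon g 1 m (by rw [pow_one]; exact hm) ∈ R)
        ?_ ?_ ?_ ?_ hm
      · rintro _ ⟨j, rfl⟩
        exact Subring.subset_closure (Or.inr ⟨j, rfl⟩)
      · have : mon g 1 0 (by simp) = 0 := by
          apply Subtype.ext
          change monomial 1 _ = 0
          simp
        rw [this]; exact zero_mem _
      · intro x y hx hy h1 h2
        have : mon g 1 (x + y) (by rw [pow_one]; exact add_mem hx hy) =
            mon g 1 x (by rw [pow_one]; exact hx) + mon g 1 y (by rw [pow_one]; exact hy) := by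
          apply Subtype.ext
          change monomial 1 _ = monomial 1 _ + monomial 1 _
          rw [map_add]
        rw [this]
        exact add_mem h1 h2
      · intro a x hx h1
        have : mon g 1 (a • x) (by rw [pow_one]; exact Submodule.smul_mem _ _ hx) =
            (phi0 g a : secRing g) * mon g 1 x (by rw [pow_one]; exact hx) := by
          apply Subtype.ext
          change monomial 1 _ = C (algebraMap ℂ K a) * monomial 1 _
          rw [C_mul_monomial, Algebra.smul_def]
        rw [this]
        exact mul_mem (Subring.subset_closure (Or.inl ⟨a, rfl⟩)) h1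
  rw [eq_top_iff]
  rintro a -
  have h1 : a = ∑ n ∈ (a : K[X]).support, mon g n ((a : K[X]).coeff n) (a.2 n) := by
    apply Subtype.ext
    rw [AddSubmonoidClass.coe_finsetSum]
    exact as_sum_support (a : K[X])
  rw [h1]
  exact sum_mem fun n _ => key _ _ _

end

end Pool.Agent.Helper49.Fano
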