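import Pool.Agent.Helper49.Fano.ChartC
import Pool.Agent.Helper49.Fano.ProjA

set_option autoImplicit false

namespace Pool.Agent.Helper49.Fano

noncomputable section

namespace PD

variable {K : Type} [Field K] [Algebra ℂ K] (D : PD K)

/-- exchange of the two coordinates -/
def swp : PD K where
  x := D.y
  y := D.x
  w := D.w
  a := D.a
  b := D.c
  c := D.b
  d := D.d
  ha := D.ha
  hb := D.hc
  hc := D.hb
  hd := D.hd
  hD := by rw [mul_comm D.c D.b]; exact D.hD
  hx := D.hy
  hy := D.hx
  eqn := by rw [D.eqn]; ring
  indep := by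
    have h := D.indep.comp (fun p : ℤ × ℤ × Fin 2 => (p.2.1, (p.1, p.2.2))) (by
      rintro ⟨m, n, e⟩ ⟨m', n', e'⟩ h
      simp only [Prod.mk.injEq] at h ⊢
      tauto)
    convert h using 2 with p
    simp only [Function.comp]
    ring
  th p q := - D.th p q
  th_add a b c := by rw [D.th_add]; ring
  th_mul a b c := by rw [D.th_mul]; ring
  th_const a c := by rw [D.th_const, neg_zero]
  th_swap a b := by rw [D.th_swap]
  th_xy := by rw [D.th_swap, neg_neg, D.th_xy]

/-- inversion of the first coordinate -/
def flipX : PD K where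
  x := D.x⁻¹
  y := D.y
  w := D.w / D.x
  a := D.b
  b := D.a
  c := D.d
  d := D.c
  ha := D.hb
  hb := D.ha
  hc := D.hd
  hd := D.hc
  hD := by
    intro h
    apply D.hD
    linear_combination -h
  hx := inv_ne_zero D.hx
  hy := D.hy
  eqn := by
    have := D.hx
    rw [div_pow, D.eqn]
    field_simp
    ring
  indep := by
    have h := D.indep.comp (fun p : ℤ × ℤ × Fin 2 => (-p.1 - (p.2.2 : ℕ), (p.2.1, p.2.2))) (by
      rintro ⟨m, n, e⟩ ⟨m', n', e'⟩ h
      simp only [Prod.mk.injEq] at h ⊢
      obtain ⟨h1, h2, h3⟩ := h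
      subst h3
      exact ⟨by omega, h2, rfl⟩)
    convert h using 2 with p
    simp only [Function.comp]
    rw [div_pow, zpow_sub₀ D.hx, zpow_neg, inv_zpow, zpow_natCast]
    ring
  th p q := - D.x * D.th p q
  th_add a b c := by rw [D.th_add]; ring
  th_mul a b c := by rw [D.th_mul]; ring
  th_const a c := by rw [D.th_const, mul_zero]
  th_swap a b := by rw [D.th_swap]; ring
  th_xy := by
    rw [D.th_swap, D.th_inv _ D.hx, D.th_swap D.y, D.th_xy]
    have := D.hx
    field_simp

/-- inversion of the second coordinate -/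
def flipY : PD K := D.swp.flipX.swp

theorem flipX_x : D.flipX.x = D.x⁻¹ := rfl
theorem flipX_y : D.flipX.y = D.y := rfl
theorem flipX_w : D.flipX.w = D.w / D.x := rfl
theorem flipX_th (p q : K) : D.flipX.th p q = -D.x * D.th p q := rfl
theorem flipY_x : D.flipY.x = D.x := rfl
theorem flipY_y : D.flipY.y = D.y⁻¹ := rfl
theorem flipY_w : D.flipY.w = D.w / D.y := rfl
theorem flipY_th (p q : K) : D.flipY.th p q = -D.y * D.th p q := by
  change - (-D.y * (- D.th p q)) = _
  ring

/-- the generators of the anticanonical space -/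
def e : Fin 5 → K := ![1, D.x, D.y, D.x * D.y, D.w]

/-- the four charts -/
def ch : Fin 4 → PD K := ![D, D.flipX, D.flipY, D.flipX.flipY]

/-- the four indices -/
def ix (i : Fin 4) : Fin 5 := i.castSucc

theorem e_ne (i : Fin 4) : D.e (ix i) ≠ 0 := by
  fin_cases i
  · exact one_ne_zero
  · exact D.hx
  · exact D.hy
  · exact mul_ne_zero D.hx D.hy

/-- the signs -/
def sg : Fin 4 → K := ![1, -1, -1, 1]

omit [Algebra ℂ K] in
theorem sg_mul (i : Fin 4) : (sg i : K) * sg i = 1 := by
  fin_cases i <;> simp [sg]

theorem ch_th (i : Fin 4) (p q : K) : (D.ch i).th p q = sg i * D.e (ix i) * D.th p q := by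
  fin_cases i
  · change D.th p q = 1 * 1 * D.th p q
    ring
  · change -D.x * D.th p q = (-1) * D.x * D.th p q
    ring
  · change D.flipY.th p q = (-1) * D.y * D.th p q
    rw [flipY_th]; ring
  · change D.flipX.flipY.th p q = 1 * (D.x * D.y) * D.th p q
    rw [flipY_th, flipX_th, flipX_y]; ring

theorem chart_eq (i : Fin 4) : chart D.e (ix i) = (D.ch i).B := by
  have hx := D.hx
  have hy := D.hy
  apply le_antisymm
  · apply Algebra.adjoin_le
    rintro _ ⟨j, rfl⟩
    have mx := (D.ch i).x_mem
    have my := (D.ch i).y_mem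
    have mw := (D.ch i).w_mem
    fin_cases i
    · change D.e j / 1 ∈ _
      rw [div_one]
      fin_cases j
      · exact one_mem _
      · exact mx
      · exact my
      · exact mul_mem mx my
      · exact mw
    · change D.e j / D.x ∈ _
      fin_cases j
      · change 1 / D.x ∈ _
        rw [one_div]; exact mx
      · change D.x / D.x ∈ _
        rw [div_self hx]; exact one_mem _
      · change D.y / D.x ∈ _
        rw [div_eq_mul_inv]; exact mul_mem my mx
      · change D.x * D.y / D.x ∈ _
        rw [mul_div_cancel_left₀ _ hx]; exact my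
      · exact mw
    · change D.e j / D.y ∈ _
      fin_cases j
      · change 1 / D.y ∈ _
        rw [one_div]; exact my
      · change D.x / D.y ∈ _
        rw [div_eq_mul_inv]; exact mul_mem mx my
      · change D.y / D.y ∈ _
        rw [div_self hy]; exact one_mem _
      · change D.x * D.y / D.y ∈ _
        rw [mul_div_cancel_right₀ _ hy]; exact mx
      · exact mw
    · change D.e j / (D.x * D.y) ∈ _
      fin_cases j
      · change 1 / (D.x * D.y) ∈ _
        rw [one_div, mul_inv]; exact mul_mem mx my
      · change D.x / (D.x * D.y) ∈ _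
        rw [show D.x / (D.x * D.y) = D.y⁻¹ by field_simp]; exact my
      · change D.y / (D.x * D.y) ∈ _
        rw [show D.y / (D.x * D.y) = D.x⁻¹ by field_simp]; exact mx
      · change (D.x * D.y) / (D.x * D.y) ∈ _
        rw [div_self (mul_ne_zero hx hy)]; exact one_mem _
      · change D.w / (D.x * D.y) ∈ _
        rw [← div_div]; exact mw
  · apply Algebra.adjoin_le
    have hm : ∀ j, D.e j / D.e (ix i) ∈ chart D.e (ix i) := fun j => Algebra.subset_adjoin ⟨j, rfl⟩
    have h0 := hm 0
    have h1 := hm 1
    have h2 := hm 2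
    have h3 := hm 3
    have h4 := hm 4
    intro z hz
    fin_cases i
    · change D.x / 1 ∈ _ at h1
      change D.y / 1 ∈ _ at h2
      change D.w / 1 ∈ _ at h4
      rw [div_one] at h1 h2 h4
      rcases hz with rfl | rfl | rfl
      · exact h1
      · exact h2
      · exact h4
    · change 1 / D.x ∈ _ at h0
      change (D.x * D.y) / D.x ∈ _ at h3
      rw [mul_div_cancel_left₀ _ hx] at h3
      rw [one_div] at h0
      rcases hz with rfl | rfl | rfl
      · exact h0
      · exact h3
      · exact h4
    · change 1 / D.y ∈ _ at h0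
      change (D.x * D.y) / D.y ∈ _ at h3
      rw [mul_div_cancel_right₀ _ hy] at h3
      rw [one_div] at h0
      rcases hz with rfl | rfl | rfl
      · exact h3
      · exact h0
      · exact h4
    · change D.x / (D.x * D.y) ∈ _ at h1
      rw [show D.x / (D.x * D.y) = D.y⁻¹ by field_simp] at h1
      change D.y / (D.x * D.y) ∈ _ at h2
      rw [show D.y / (D.x * D.y) = D.x⁻¹ by field_simp] at h2
      change D.w / (D.x * D.y) ∈ _ at h4
      rw [← div_div] at h4
      rcases hz with rfl | rfl | rfl
      · exact h2
      · exact h1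
      · exact h4

end PD

end

end Pool.Agent.Helper49.Fano
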