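import Pool.Agent.Helper49.Fano.ChartD
import Pool.Agent.Helper92.Fano.Pencil

set_option autoImplicit false

open Matrix Pool.Agent.Helper92.Fano

namespace Pool.Agent.Helper49.Fano

noncomputable section

namespace PD

variable {K : Type} [Field K] [Algebra ℂ K] (D : PD K)

/-- the thirteen monomials in products of generators -/
def E13 : Fin 13 → ℤ × ℤ × Fin 2 := ![(0, 0, 0), (1, 0, 0), (0, 1, 0), (1, 1, 0), (0, 0, 1),
  (2, 0, 0), (2, 1, 0), (1, 0, 1), (0, 2, 0), (1, 2, 0), (0, 1, 1), (2, 2, 0), (1, 1, 1)]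

theorem E13_inj : Function.Injective E13 := by decide

theorem quad (s : ℂ) (ha : D.a = 1) (hb : D.b = s) (hc : D.c = s) (hd : D.d = 1)
    (P : Matrix (Fin 5) (Fin 5) ℂ) (hP : ∀ i j, P i j = P j i)
    (h : ∑ i, ∑ j, algebraMap ℂ K (P i j) * (D.e i * D.e j) = 0) :
    ∃ l m : ℂ, P = Q s l m := by
  let C : Fin 13 → ℂ := ![P 0 0 + P 4 4, P 0 1 + P 1 0, P 0 2 + P 2 0,
    P 0 3 + P 3 0 + P 1 2 + P 2 1, P 0 4 + P 4 0, P 1 1 + s * P 4 4, P 1 3 + P 3 1,
    P 1 4 + P 4 1, P 2 2 + s * P 4 4, P 2 3 + P 3 2, P 2 4 + P 4 2, P 3 3 + P 4 4,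
    P 3 4 + P 4 3]
  have heq := D.eqn
  rw [ha, hb, hc, hd, map_one] at heq
  have h1 : ∑ k, C k • (D.v ∘ E13) k = 0 := by
    rw [← h]
    simp only [Fin.sum_univ_succ, Fin.sum_univ_zero]
    simp [C, E13, v, e, Algebra.smul_def]
    linear_combination (-algebraMap ℂ K (P 4 4)) * heq
  have h2 : LinearIndependent ℂ (D.v ∘ E13) := D.indep.comp _ E13_inj
  have h3 := Fintype.linearIndependent_iff.1 h2 C h1
  refine ⟨2 * P 0 3, P 4 4, ?_⟩
  have c0 := h3 0
  have c1 := h3 1
  have c2 := h3 2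
  have c3 := h3 3
  have c4 := h3 4
  have c5 := h3 5
  have c6 := h3 6
  have c7 := h3 7
  have c8 := h3 8
  have c9 := h3 9
  have c10 := h3 10
  have c11 := h3 11
  have c12 := h3 12
  change P 0 0 + P 4 4 = 0 at c0
  change P 0 1 + P 1 0 = 0 at c1
  change P 0 2 + P 2 0 = 0 at c2
  change P 0 3 + P 3 0 + P 1 2 + P 2 1 = 0 at c3
  change P 0 4 + P 4 0 = 0 at c4
  change P 1 1 + s * P 4 4 = 0 at c5
  change P 1 3 + P 3 1 = 0 at c6
  change P 1 4 + P 4 1 = 0 at c7
  change P 2 2 + s * P 4 4 = 0 at c8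
  change P 2 3 + P 3 2 = 0 at c9
  change P 2 4 + P 4 2 = 0 at c10
  change P 3 3 + P 4 4 = 0 at c11
  change P 3 4 + P 4 3 = 0 at c12
  have s01 := hP 0 1
  have s02 := hP 0 2
  have s03 := hP 0 3
  have s04 := hP 0 4
  have s12 := hP 1 2
  have s13 := hP 1 3
  have s14 := hP 1 4
  have s23 := hP 2 3
  have s24 := hP 2 4
  have s34 := hP 3 4
  ext i j
  fin_cases i <;> fin_cases j <;> simp [Q]
  · linear_combination c0
  · linear_combination (c1 + s01) / 2
  · linear_combination (c2 + s02) / 2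
  · linear_combination (c4 + s04) / 2
  · linear_combination (c1 - s01) / 2
  · linear_combination c5
  · linear_combination (c3 + s03 + s12) / 2
  · linear_combination (c6 + s13) / 2
  · linear_combination (c7 + s14) / 2
  · linear_combination (c2 - s02) / 2
  · linear_combination (c3 + s03 - s12) / 2
  · linear_combination c8
  · linear_combination (c9 + s23) / 2
  · linear_combination (c10 + s24) / 2
  · linear_combination - s03
  · linear_combination (c6 - s13) / 2
  · linear_combination (c9 - s23) / 2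
  · linear_combination c11
  · linear_combination (c12 + s34) / 2
  · linear_combination (c4 - s04) / 2
  · linear_combination (c7 - s14) / 2
  · linear_combination (c10 - s24) / 2
  · linear_combination (c12 - s34) / 2

theorem Q_quad (s : ℂ) (ha : D.a = 1) (hb : D.b = s) (hc : D.c = s) (hd : D.d = 1) (l m : ℂ) :
    ∑ i, ∑ j, algebraMap ℂ K (Q s l m i j) * (D.e i * D.e j) = 0 := by
  have heq := D.eqn
  rw [ha, hb, hc, hd, map_one] at heq
  simp only [Fin.sum_univ_succ, Fin.sum_univ_zero]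
  simp [Q, e]
  linear_combination (algebraMap ℂ K m) * heq

theorem Q_conj (s l m : ℂ) (i j : Fin 5) : starRingEnd ℂ (Q s l m i j) =
    Q (starRingEnd ℂ s) (starRingEnd ℂ l) (starRingEnd ℂ m) i j := by
  have h2 : (starRingEnd ℂ) 2 = 2 := map_ofNat _ 2
  fin_cases i <;> fin_cases j <;> simp [Q, h2]

theorem e_indep : LinearIndependent ℂ D.e := by
  have h : D.e = D.v ∘ (![(0, 0, 0), (1, 0, 0), (0, 1, 0), (1, 1, 0), (0, 0, 1)] :
      Fin 5 → ℤ × ℤ × Fin 2) := by
    ext i
    fin_cases i <;> simp [e, v]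
  rw [h]
  exact D.indep.comp _ (by decide)

/-- The matrix argument. -/
theorem matrix_arg (s : ℂ) (ha : D.a = 1) (hb : D.b = s) (hc : D.c = s) (hd : D.d = 1)
    (τ : K →+* K) (hτ : ∀ c : ℂ, τ (algebraMap ℂ K c) = algebraMap ℂ K (starRingEnd ℂ c))
    (h : K) (h0 : h ≠ 0) (hW : ∀ j, h * τ (D.e j) ∈ Submodule.span ℂ (Set.range D.e)) :
    ∃ M : Matrix (Fin 5) (Fin 5) ℂ, M.det ≠ 0 ∧
      ∀ l m : ℂ, ∃ l' m' : ℂ, M * Q (starRingEnd ℂ s) l m * Mᵀ = Q s l' m' := by
  have h1 : ∀ j, ∃ c : Fin 5 → ℂ, ∑ i, c i • D.e i = h * τ (D.e j) := by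
    intro j
    exact (Submodule.mem_span_range_iff_exists_fun ℂ).1 (hW j)
  choose N hN using h1
  let M : Matrix (Fin 5) (Fin 5) ℂ := fun i j => N j i
  have hM : ∀ j, ∑ i, algebraMap ℂ K (M i j) * D.e i = h * τ (D.e j) := by
    intro j
    rw [← hN j]
    refine Finset.sum_congr rfl fun i _ => ?_
    rw [Algebra.smul_def]
  refine ⟨M, ?_, ?_⟩
  · intro hdet
    obtain ⟨c, hc0, hc⟩ := (Matrix.exists_mulVec_eq_zero_iff).2 hdet
    apply hc0
    have h2 : h * τ (∑ j, algebraMap ℂ K (starRingEnd ℂ (c j)) * D.e j) = 0 := by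
      rw [map_sum, Finset.mul_sum]
      have h3 : ∀ j, h * τ (algebraMap ℂ K (starRingEnd ℂ (c j)) * D.e j) =
          ∑ i, algebraMap ℂ K (M i j * c j) * D.e i := by
        intro j
        rw [map_mul, hτ, Complex.conj_conj]
        calc h * (algebraMap ℂ K (c j) * τ (D.e j)) = algebraMap ℂ K (c j) * (h * τ (D.e j)) := by ring
          _ = _ := by
            rw [← hM j, Finset.mul_sum]
            refine Finset.sum_congr rfl fun i _ => ?_
            rw [map_mul]; ring
      simp only [h3]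
      rw [Finset.sum_comm]
      refine Finset.sum_eq_zero fun i _ => ?_
      rw [← Finset.sum_mul, ← map_sum]
      have h4 := congrFun hc i
      simp only [Matrix.mulVec, dotProduct, Pi.zero_apply] at h4
      rw [h4, map_zero, zero_mul]
    have h5 : τ (∑ j, algebraMap ℂ K (starRingEnd ℂ (c j)) * D.e j) = 0 :=
      (mul_eq_zero.1 h2).resolve_left h0
    have h6 : ∑ j, algebraMap ℂ K (starRingEnd ℂ (c j)) * D.e j = 0 := by
      apply τ.injective
      rw [h5, map_zero]
    have h7 := Fintype.linearIndependent_iff.1 D.e_indep (fun j => starRingEnd ℂ (c j)) (by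
      rw [← h6]
      refine Finset.sum_congr rfl fun i _ => ?_
      rw [Algebra.smul_def])
    ext j
    have h8 := h7 j
    simpa using h8
  · intro l m
    apply D.quad s ha hb hc hd
    · intro i j
      have hsym : (M * Q (starRingEnd ℂ s) l m * Mᵀ)ᵀ = M * Q (starRingEnd ℂ s) l m * Mᵀ := by
        rw [Matrix.transpose_mul, Matrix.transpose_mul, Matrix.transpose_transpose,
          Matrix.mul_assoc]
        congr 2
        ext i j
        fin_cases i <;> fin_cases j <;> simp [Q]
      exact congrFun (congrFun hsym.symm i) j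
    · have h2 := D.Q_quad s ha hb hc hd (starRingEnd ℂ l) (starRingEnd ℂ m)
      have h3 : ∑ i, ∑ j, algebraMap ℂ K (Q (starRingEnd ℂ s) l m i j) *
          ((h * τ (D.e i)) * (h * τ (D.e j))) = 0 := by
        have h4 := congrArg (fun z => h * h * τ z) h2
        simp only [map_zero, mul_zero, map_sum, Finset.mul_sum] at h4
        rw [← h4]
        refine Finset.sum_congr rfl fun i _ => Finset.sum_congr rfl fun j _ => ?_
        rw [map_mul, map_mul, hτ, Q_conj, Complex.conj_conj, Complex.conj_conj]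
        ring
      rw [← h3]
      have h5 : ∀ i j, algebraMap ℂ K (Q (starRingEnd ℂ s) l m i j) *
          ((h * τ (D.e i)) * (h * τ (D.e j))) = ∑ p, ∑ q, algebraMap ℂ K (M p i *
            Q (starRingEnd ℂ s) l m i j * M q j) * (D.e p * D.e q) := by
        intro i j
        rw [← hM i, ← hM j, Finset.sum_mul_sum, Finset.mul_sum]
        refine Finset.sum_congr rfl fun p _ => ?_
        rw [Finset.mul_sum]
        refine Finset.sum_congr rfl fun q _ => ?_
        rw [map_mul, map_mul]; ring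
      simp only [h5]
      have h6 : ∀ p q, (M * Q (starRingEnd ℂ s) l m * Mᵀ) p q =
          ∑ i, ∑ j, M p i * Q (starRingEnd ℂ s) l m i j * M q j := by
        intro p q
        simp only [Matrix.mul_apply, Matrix.transpose_apply, Finset.sum_mul]
        rw [Finset.sum_comm]
      simp only [h6, map_sum, Finset.sum_mul]
      calc ∑ p, ∑ q, ∑ i, ∑ j, algebraMap ℂ K (M p i * Q (starRingEnd ℂ s) l m i j * M q j) *
              (D.e p * D.e q)
          = ∑ p, ∑ i, ∑ q, ∑ j, algebraMap ℂ K (M p i * Q (starRingEnd ℂ s) l m i j * M q j) *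
              (D.e p * D.e q) := by
            refine Finset.sum_congr rfl fun p _ => ?_
            rw [Finset.sum_comm]
        _ = ∑ i, ∑ p, ∑ q, ∑ j, algebraMap ℂ K (M p i * Q (starRingEnd ℂ s) l m i j * M q j) *
              (D.e p * D.e q) := by rw [Finset.sum_comm]
        _ = ∑ i, ∑ p, ∑ j, ∑ q, algebraMap ℂ K (M p i * Q (starRingEnd ℂ s) l m i j * M q j) *
              (D.e p * D.e q) := by
            refine Finset.sum_congr rfl fun i _ => Finset.sum_congr rfl fun p _ => ?_
            rw [Finset.sum_comm]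
        _ = ∑ i, ∑ j, ∑ p, ∑ q, algebraMap ℂ K (M p i * Q (starRingEnd ℂ s) l m i j * M q j) *
              (D.e p * D.e q) := by
            refine Finset.sum_congr rfl fun i _ => ?_
            rw [Finset.sum_comm]

end PD

end

end Pool.Agent.Helper49.Fano
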