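import Pool.Agent.Helper49.Fano.Geo

set_option autoImplicit false

open CategoryTheory AlgebraicGeometry Limits Opposite

namespace Pool.Agent.Helper49.Fano

noncomputable section

/-- `Spec` of complex conjugation. -/
def conjSpec : Spec (.of ℂ) ⟶ Spec (.of ℂ) := Spec.map (CommRingCat.ofHom (starRingEnd ℂ))

theorem starRingEnd_comp : (starRingEnd ℂ).comp (starRingEnd ℂ) = RingHom.id ℂ := by
  ext x; simp

theorem conjSpec_conjSpec : conjSpec ≫ conjSpec = 𝟙 _ := by
  rw [conjSpec, ← Spec.map_comp, ← CommRingCat.ofHom_comp, starRingEnd_comp]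
  exact Spec.map_id _

instance : IsIso conjSpec := ⟨conjSpec, conjSpec_conjSpec, conjSpec_conjSpec⟩

/-- The complex conjugate of a `ℂ`-scheme: the same scheme, with the structure morphism composed
with complex conjugation. -/
def CScheme.conj (V : CScheme) : CScheme := ⟨V.X, V.str ≫ conjSpec⟩

theorem conj_conj (V : CScheme) : V.conj.conj = V := by
  cases V
  simp [CScheme.conj, Category.assoc, conjSpec_conjSpec]

theorem conj_constHom (V : CScheme) : V.conj.constHom =
    CommRingCat.ofHom (starRingEnd ℂ) ≫ V.constHom := by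
  have h := Scheme.ΓSpecIso_inv_naturality (CommRingCat.ofHom (starRingEnd ℂ) : CommRingCat.of ℂ ⟶ .of ℂ)
  have h1 : (Scheme.ΓSpecIso (.of ℂ)).inv ≫ V.conj.str.appTop =
      CommRingCat.ofHom (starRingEnd ℂ) ≫ (Scheme.ΓSpecIso (.of ℂ)).inv ≫ V.str.appTop := by
    rw [← Category.assoc, h, Category.assoc]
    congr 1
  exact h1

theorem conj_constU (V : CScheme) (c : ℂ) (U : V.X.Opens) :
    V.conj.constU c U = V.constU (starRingEnd ℂ c) U := by
  unfold CScheme.constU
  rw [conj_constHom]
  rfl

theorem conj_constHom_apply (V : CScheme) (c : ℂ) :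
    V.conj.constHom.hom c = V.constHom.hom (starRingEnd ℂ c) := by
  rw [conj_constHom]
  rfl

instance conjIntegral (V : CScheme) [h : IsIntegral V.X] : IsIntegral V.conj.X := h

theorem conj_C (V : CScheme) [IsIntegral V.X] : V.conj.C = V.C := by
  have h : ∀ c, V.conj.constK c = V.constK (starRingEnd ℂ c) := by
    intro c
    unfold CScheme.constK
    rw [conj_constHom]
    rfl
  ext z
  change z ∈ V.conj.constK.fieldRange ↔ z ∈ V.constK.fieldRange
  constructor
  · rintro ⟨c, rfl⟩
    exact ⟨starRingEnd ℂ c, (h c).symm⟩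
  · rintro ⟨c, rfl⟩
    exact ⟨starRingEnd ℂ c, by rw [h]; exact congrArg V.constK (Complex.conj_conj c)⟩

theorem Iso.conj {V W : CScheme} (h : Iso V W) : Iso V.conj W.conj := by
  obtain ⟨e, he⟩ := h
  refine ⟨e, ?_⟩
  change e.hom ≫ W.str ≫ conjSpec = V.str ≫ conjSpec
  rw [← Category.assoc, he]

/-- the same graded algebra, with the structure map composed with conjugation -/
def GrAlg.conj (G : GrAlg (.of ℂ)) : GrAlg (.of ℂ) where
  A := G.A
  ring := G.ring
  part := G.part
  graded := G.graded
  φ := G.φ.comp (starRingEnd ℂ)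

theorem GrAlg.conj_str (G : GrAlg (.of ℂ)) : G.conj.str = G.str ≫ conjSpec := by
  change Proj.toSpecZero G.part ≫ Spec.map (CommRingCat.ofHom (G.φ.comp (starRingEnd ℂ))) = _
  rw [CommRingCat.ofHom_comp, Spec.map_comp, ← Category.assoc]
  rfl

theorem GrAlg.Standard.conj {G : GrAlg (.of ℂ)} (h : G.Standard) : G.conj.Standard := by
  obtain ⟨s, h1, h2, h3⟩ := h
  have hr : (Set.range (fun r => (G.conj.φ r : G.conj.A)) : Set G.A) =
      Set.range (fun r => (G.φ r : G.A)) := by
    ext a
    constructor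
    · rintro ⟨r, rfl⟩
      exact ⟨starRingEnd ℂ r, rfl⟩
    · rintro ⟨r, rfl⟩
      exact ⟨starRingEnd ℂ r, by
        change ((G.φ (starRingEnd ℂ (starRingEnd ℂ r)) : G.part 0) : G.A) = _
        rw [Complex.conj_conj]⟩
  exact ⟨s, h1, h2, (congrArg (fun t => Subring.closure (t ∪ s)) hr).trans h3⟩

theorem IsProjective.conj {V : CScheme} (h : IsProjective V.str) : IsProjective V.conj.str := by
  obtain ⟨G, h1, e, he⟩ := h
  refine ⟨G.conj, h1.conj, e, ?_⟩
  rw [GrAlg.conj_str]
  change V.str ≫ conjSpec = _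
  rw [he, Category.assoc]
  rfl

theorem HasDim.conj {V : CScheme} [IsIntegral V.X] {d : ℕ} (h : HasDim V d) :
    HasDim V.conj d := by
  obtain ⟨b, hb⟩ := h
  refine ⟨b, ?_⟩
  rw [conj_C]
  exact hb

/-- transport of a section to the conjugate scheme -/
def AntiSec.conj {V : CScheme} [IsIntegral V.X] {d m : ℕ} (s : AntiSec V d m) :
    AntiSec V.conj d m where
  u := s.u
  δ := s.δ
  isMultiDer := by rw [conj_C]; exact s.isMultiDer

theorem AmpleAnticanonical.conj {V : CScheme} [IsIntegral V.X] {d : ℕ}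
    (h : AmpleAnticanonical V d) : AmpleAnticanonical V.conj d := by
  intro x
  obtain ⟨m, s, h1, h2, h3, U, h4, h5⟩ := h x
  exact ⟨m, s.conj, h1, h2, h3, U, h4, h5⟩

theorem IsSmoothProjVar.conj {V : CScheme} {d : ℕ} (h : IsSmoothProjVar V d) :
    IsSmoothProjVar V.conj d where
  integral := h.integral
  smooth := by
    have := h.smooth
    change Smooth (V.str ≫ conjSpec)
    infer_instance
  projective := h.projective.conj
  dim := by
    have := h.integral
    exact h.dim.conj

theorem IsFano.conj {V : CScheme} {d : ℕ} (h : IsFano V d) : IsFano V.conj d where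
  toIsSmoothProjVar := h.toIsSmoothProjVar.conj
  ample := by
    have := h.integral
    exact h.ample.conj

theorem conj_fibre {R : CommRingCat.{0}} {X : Scheme.{0}} (f : X ⟶ Spec R) (b : R →+* ℂ) :
    Iso (fibre f b).conj (fibre f ((starRingEnd ℂ).comp b)) := by
  set g : Spec (.of ℂ) ⟶ Spec R := Spec.map (CommRingCat.ofHom b : R ⟶ .of ℂ) with hg
  have hg' : Spec.map (CommRingCat.ofHom ((starRingEnd ℂ).comp b) : R ⟶ .of ℂ) =
      conjSpec ≫ g := by
    rw [CommRingCat.ofHom_comp, Spec.map_comp]; rfl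
  have hp : IsPullback (pullback.fst f g) (pullback.snd f g ≫ conjSpec) f (conjSpec ≫ g) := by
    refine IsPullback.of_iso (IsPullback.of_hasPullback f g) (CategoryTheory.Iso.refl _)
      (CategoryTheory.Iso.refl _) (asIso conjSpec) (CategoryTheory.Iso.refl _) (by simp) (by simp)
      (by simp) ?_
    simp only [CategoryTheory.Iso.refl_hom, Category.comp_id, asIso_hom]
    rw [← Category.assoc, conjSpec_conjSpec, Category.id_comp]
  have hq : IsPullback (pullback.fst f (Spec.map (CommRingCat.ofHom ((starRingEnd ℂ).comp b) : R ⟶ .of ℂ)))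
      (pullback.snd f (Spec.map (CommRingCat.ofHom ((starRingEnd ℂ).comp b) : R ⟶ .of ℂ))) f
      (conjSpec ≫ g) := by
    rw [← hg']; exact IsPullback.of_hasPullback _ _
  exact ⟨hp.isoIsPullback _ _ hq, IsPullback.isoIsPullback_hom_snd _ _ hp hq⟩

theorem Iso.trans {U V W : CScheme} (h : Iso U V) (h' : Iso V W) : Iso U W := by
  obtain ⟨e, he⟩ := h
  obtain ⟨e', he'⟩ := h'
  exact ⟨e ≪≫ e', by simp [he, he']⟩

theorem InFamily.conj {V W : CScheme} (h : InFamily V W) : InFamily V.conj W.conj := by
  obtain ⟨R, ι, X, f, h1, h2, h3, h4, h5, ⟨b, hb, hV⟩, ⟨c, hc, hW⟩⟩ := h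
  have key : ∀ b : R →+* ℂ, b.comp ι = RingHom.id ℂ →
      ((starRingEnd ℂ).comp b).comp (ι.comp (starRingEnd ℂ)) = RingHom.id ℂ := by
    intro b hb
    ext z
    have := congrArg (fun g : ℂ →+* ℂ => g (starRingEnd ℂ z)) hb
    simp only [RingHom.comp_apply, RingHom.id_apply] at this ⊢
    rw [this]; simp
  refine ⟨R, ι.comp (starRingEnd ℂ), X, f, ?_, h2, h3, h4, ?_, ?_, ?_⟩
  · exact h1.comp (RingHom.FiniteType.of_surjective _ (fun z => ⟨starRingEnd ℂ z, by simp⟩))
  · intro b hb
    have hb' : ((starRingEnd ℂ).comp b).comp ι = RingHom.id ℂ := by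
      ext z
      have := congrArg (fun g : ℂ →+* ℂ => g (starRingEnd ℂ z)) hb
      simp only [RingHom.comp_apply, RingHom.id_apply] at this ⊢
      simp only [Complex.conj_conj] at this
      rw [this]; simp
    obtain ⟨F, d, hF, hi⟩ := h5 _ hb'
    refine ⟨F.conj, d, hF.conj, hi.conj.trans ?_⟩
    have := conj_fibre f ((starRingEnd ℂ).comp b)
    rw [← RingHom.comp_assoc, starRingEnd_comp, RingHom.id_comp] at this
    exact this
  · exact ⟨_, key b hb, hV.conj.trans (conj_fibre f b)⟩
  · exact ⟨_, key c hc, hW.conj.trans (conj_fibre f c)⟩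

theorem DefEquiv.conj {V W : CScheme} (h : DefEquiv V W) : DefEquiv V.conj W.conj := by
  induction h with
  | rel x y h => exact .rel _ _ h.conj
  | refl x => exact .refl _
  | symm x y _ ih => exact .symm _ _ ih
  | trans x y z _ _ ih ih' => exact .trans _ _ _ ih ih'

theorem isMulBy_conj (V : CScheme) (c : ℂ) {M : V.X.Modules} (f : M ⟶ M) :
    IsMulBy V.conj c (M := M) f ↔ IsMulBy V (starRingEnd ℂ c) f := by
  constructor
  · intro h U
    exact (h U).trans (congrArg (Sec.smul M U) (conj_constU V c U))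
  · intro h U
    exact (h U).trans (congrArg (Sec.smul M U) (conj_constU V c U).symm)

theorem isScalar_conj (V : CScheme) (c : ℂ) {K : DMod V.X} (e : K ⟶ K) :
    IsScalar (V.conj) c (K := K) e ↔ IsScalar V (starRingEnd ℂ c) e := by
  constructor
  · rintro ⟨C, φ, i, h1, h2⟩
    exact ⟨C, φ, i, fun n => (isMulBy_conj V c _).1 (h1 n), h2⟩
  · rintro ⟨C, φ, i, h1, h2⟩
    exact ⟨C, φ, i, fun n => (isMulBy_conj V c _).2 (h1 n), h2⟩

theorem Embeds.conj {lin : Prop} {W V : CScheme} (h : Embeds lin W V) :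
    Embeds lin W.conj V.conj := by
  obtain ⟨F, h1, h2, h3, h4⟩ := h
  refine ⟨F, h1, h2, h3, fun hl c K e he => ?_⟩
  have h5 := h4 hl (starRingEnd ℂ c) K e
  rw [← isScalar_conj, ← isScalar_conj] at h5
  exact h5 he

/-- conjugation on deformation classes -/
def conjClass : Quotient defSetoid → Quotient defSetoid :=
  Quotient.map CScheme.conj (fun _ _ h => DefEquiv.conj h)

theorem conjClass_conjClass (c : Quotient defSetoid) : conjClass (conjClass c) = c := by
  induction c using Quotient.inductionOn with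
  | h V =>
    change Quotient.mk defSetoid V.conj.conj = _
    rw [conj_conj]

/-- The Fano function of a variety and of its complex conjugate agree. -/
theorem kappa_conj (lin : Prop) (Y : CScheme) (n : ℕ) : kappa lin Y.conj n = kappa lin Y n := by
  have key : ∀ Y : CScheme, ∀ c : Quotient defSetoid,
      (∃ X : CScheme, IsFano X n ∧ Embeds lin Y X ∧ c = Quotient.mk defSetoid X) →
      (∃ X : CScheme, IsFano X n ∧ Embeds lin Y.conj X ∧
        conjClass c = Quotient.mk defSetoid X) := by
    rintro Y c ⟨X, h1, h2, rfl⟩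
    exact ⟨X.conj, h1.conj, h2.conj, rfl⟩
  refine Cardinal.mk_congr (Equiv.subtypeEquiv ⟨conjClass, conjClass, conjClass_conjClass,
    conjClass_conjClass⟩ ?_)
  intro c
  constructor
  · intro h
    have := key _ _ h
    rw [conj_conj] at this
    exact this
  · intro h
    have := key _ _ h
    change ∃ X : CScheme, IsFano X n ∧ Embeds lin Y.conj X ∧
        conjClass (conjClass c) = Quotient.mk defSetoid X at this
    rw [conjClass_conjClass] at this
    exact this

end

end Pool.Agent.Helper49.Fano
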