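import Mathlib

set_option autoImplicit false

open CategoryTheory AlgebraicGeometry Limits Opposite

namespace Pool.Agent.Helper49.Fano

noncomputable section

/-! ### Derived categories -/

section Derived

/-- The derived category of `𝒪_X`-modules exists; we fix the standard model. -/
instance hasDer (X : Scheme.{0}) : HasDerivedCategory.{1} X.Modules :=
  HasDerivedCategory.standard _

/-- The derived category `D(X)` of the abelian category of `𝒪_X`-modules. -/
abbrev DMod (X : Scheme.{0}) := DerivedCategory X.Modules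

/-- The cohomology sheaf `H^n(K)` of an object `K` of `D(X)`. -/
def coh (X : Scheme.{0}) (n : ℤ) (K : DMod X) : X.Modules :=
  (DerivedCategory.homologyFunctor X.Modules n).obj K

/-- Finitely presented `𝒪_X`-modules; on a locally noetherian scheme these are the coherent
sheaves. -/
def IsFP (X : Scheme.{0}) (M : X.Modules) : Prop :=
  SheafOfModules.IsFinitePresentation.{0} (R := X.ringCatSheaf) M

theorem IsFP.of_iso {X : Scheme.{0}} {M N : X.Modules} (e : M ≅ N) (h : IsFP X M) : IsFP X N :=
  ObjectProperty.prop_of_iso (SheafOfModules.isFinitePresentation X.ringCatSheaf) e h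

/-- `D^b(X)`, as a property of objects of `D(X)`: all cohomology sheaves are coherent and only
finitely many of them are nonzero. -/
def dbCoh (X : Scheme.{0}) : ObjectProperty (DMod X) := fun K =>
  (∀ n : ℤ, IsFP X (coh X n K)) ∧
    ∃ a b : ℤ, ∀ n : ℤ, n < a ∨ b < n → IsZero (coh X n K)

instance (X : Scheme.{0}) : (dbCoh X).IsClosedUnderIsomorphisms where
  of_iso {K L} e hK := by
    obtain ⟨h1, a, b, h2⟩ := hK
    exact ⟨fun n => (h1 n).of_iso ((DerivedCategory.homologyFunctor X.Modules n).mapIso e),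
      a, b, fun n hn => (h2 n hn).of_iso ((DerivedCategory.homologyFunctor X.Modules n).mapIso e).symm⟩

/-- `H^n(K[a]) ≅ H^{a+n}(K)`. -/
def cohShift (X : Scheme.{0}) (a n m : ℤ) (h : a + n = m) (K : DMod X) :
    coh X n (K⟦a⟧) ≅ coh X m K :=
  ((DerivedCategory.homologyFunctor X.Modules 0).shiftIso a n m h).app K

instance (X : Scheme.{0}) : (dbCoh X).IsStableUnderShift ℤ where
  isStableUnderShiftBy a := ⟨fun K hK => by
    obtain ⟨h1, p, q, h2⟩ := hK
    refine ⟨fun n => (h1 (a + n)).of_iso (cohShift X a n _ rfl K).symm, p - a, q - a,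
      fun n hn => (h2 (a + n) ?_).of_iso (cohShift X a n _ rfl K)⟩
    rcases hn with hn | hn
    · left; linarith
    · right; linarith⟩

/-- The category `D^b(X)`. -/
abbrev Db (X : Scheme.{0}) := (dbCoh X).FullSubcategory

/-- Distinguished triangles of `D^b(X)`: those which are distinguished in `D(X)`. -/
def IsDist (X : Scheme.{0}) (T : Pretriangulated.Triangle (Db X)) : Prop :=
  (dbCoh X).ι.mapTriangle.obj T ∈ Pretriangulated.distinguishedTriangles

/-- Exact functors `D^b(Y) → D^b(X)`: additive functors which commute with the shifts and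
preserve distinguished triangles. -/
def IsExact {Y X : Scheme.{0}} (F : Db Y ⥤ Db X) : Prop :=
  F.Additive ∧ ∃ _ : F.CommShift ℤ, ∀ T, IsDist Y T → IsDist X (F.mapTriangle.obj T)

end Derived

/-! ### Schemes over `ℂ` -/

/-- A scheme over `ℂ`. -/
structure CScheme where
  /-- the underlying scheme -/
  X : Scheme.{0}
  /-- the structure morphism -/
  str : X ⟶ Spec (.of ℂ)

/-- `V ≅ W` over `ℂ`. -/
def Iso (V W : CScheme) : Prop := ∃ e : V.X ≅ W.X, e.hom ≫ W.str = V.str

/-- The ring `Γ(X, U)` of regular functions on the open set `U`. -/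
def Fn (X : Scheme.{0}) (U : X.Opens) : CommRingCat.{0} := Γ(X, U)

/-- Restriction of global functions. -/
def Fn.res (X : Scheme.{0}) (U : X.Opens) : Fn X ⊤ ⟶ Fn X U :=
  X.presheaf.map (homOfLE le_top).op

/-- The group `Γ(M, U)` of sections of an `𝒪_X`-module over `U`. -/
def Sec {X : Scheme.{0}} (M : X.Modules) (U : X.Opens) : Ab.{0} := Γ(M, U)

/-- The action of a morphism of `𝒪_X`-modules on sections. -/
def Sec.map {X : Scheme.{0}} {M N : X.Modules} (f : M ⟶ N) (U : X.Opens) : Sec M U ⟶ Sec N U :=
  f.app U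

/-- Multiplication of sections of `M` over `U` by functions on `U`. -/
def Sec.smul {X : Scheme.{0}} (M : X.Modules) (U : X.Opens) : Fn X U →+* End (Sec M U) :=
  @Scheme.Modules.smul X M U

/-- The map `ℂ → Γ(X, 𝒪_X)`. -/
def CScheme.constHom (V : CScheme) : CommRingCat.of ℂ ⟶ Fn V.X ⊤ :=
  (Scheme.ΓSpecIso (.of ℂ)).inv ≫ V.str.appTop

/-- The constant function `c` on the open set `U`. -/
def CScheme.constU (V : CScheme) (c : ℂ) (U : V.X.Opens) : Fn V.X U :=
  (V.constHom ≫ Fn.res V.X U).hom c

/-- The endomorphism `f` of an `𝒪_X`-module is multiplication by `c ∈ ℂ`. -/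
def IsMulBy (V : CScheme) (c : ℂ) {M : V.X.Modules} (f : M ⟶ M) : Prop :=
  ∀ U : V.X.Opens, Sec.map f U = Sec.smul M U (V.constU c U)

/-- The object of `D(X)` defined by a complex of `𝒪_X`-modules. -/
def QObj (X : Scheme.{0}) (C : CochainComplex X.Modules ℤ) : DMod X := DerivedCategory.Q.obj C

/-- The morphism of `D(X)` defined by a morphism of complexes. -/
def QMap (X : Scheme.{0}) {C D : CochainComplex X.Modules ℤ} (φ : C ⟶ D) : QObj X C ⟶ QObj X D :=
  DerivedCategory.Q.map φ

/-- The endomorphism `e` of `K ∈ D(X)` is multiplication by `c ∈ ℂ`: it is represented by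
multiplication by `c` on a complex representing `K`. -/
def IsScalar (V : CScheme) (c : ℂ) {K : DMod V.X} (e : K ⟶ K) : Prop :=
  ∃ (C : CochainComplex V.X.Modules ℤ) (φ : C ⟶ C) (i : QObj V.X C ≅ K),
    (∀ n : ℤ, IsMulBy V c (φ.f n)) ∧ e = i.inv ≫ QMap V.X φ ≫ i.hom

/-- A functor `D^b(Y) → D^b(X)` is `ℂ`-linear: it sends multiplication by `c` on an object to
multiplication by `c` on its image, for all `c ∈ ℂ`. (For an additive functor this is the same as
linearity on all groups of morphisms.) -/
def IsLinear {W V : CScheme} (F : Db W.X ⥤ Db V.X) : Prop :=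
  ∀ (c : ℂ) (K : Db W.X) (e : K ⟶ K),
    IsScalar W c ((dbCoh W.X).ι.map e) → IsScalar V c ((dbCoh V.X).ι.map (F.map e))

/-- There is a fully faithful exact `ℂ`-linear functor `D^b(W) → D^b(V)`; if `lin` is false,
linearity is not required. -/
def Embeds (lin : Prop) (W V : CScheme) : Prop :=
  ∃ F : Db W.X ⥤ Db V.X, F.Full ∧ F.Faithful ∧ IsExact F ∧ (lin → IsLinear F)

end

end Pool.Agent.Helper49.Fano
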