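import Mathlib

set_option autoImplicit false

open CategoryTheory AlgebraicGeometry Limits Opposite TopologicalSpace

namespace Pool.Agent.Helper49.Fano

noncomputable section

variable (X : Scheme.{0}) [IsIntegral X]

/-- local ring in the function field -/
def locR (x : X) : Subring X.functionField :=
  (algebraMap (X.presheaf.stalk x) X.functionField).range

theorem algebraMap_stalk_injective (x : X) :
    Function.Injective (algebraMap (X.presheaf.stalk x) X.functionField) :=
  IsFractionRing.injective _ _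

theorem germ_mem_locR {U : X.Opens} [Nonempty U] {x : X} (hx : x ∈ U) (s : Γ(X, U)) :
    X.germToFunctionField U s ∈ locR X x :=
  ⟨X.presheaf.germ U x hx s, X.algebraMap_germ_eq_germToFunctionField hx s⟩

theorem isUnit_germ_iff {U : X.Opens} [Nonempty U] {x : X} (hx : x ∈ U) (s : Γ(X, U)) :
    IsUnit (X.presheaf.germ U x hx s) ↔
      X.germToFunctionField U s ≠ 0 ∧ (X.germToFunctionField U s)⁻¹ ∈ locR X x := by
  rw [← X.algebraMap_germ_eq_germToFunctionField hx s]
  constructor
  · rintro h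
    obtain ⟨u, hu⟩ := h
    have h1 : IsUnit (algebraMap (X.presheaf.stalk x) X.functionField
      (X.presheaf.germ U x hx s)) := (hu ▸ u.isUnit).map _
    refine ⟨h1.ne_zero, ⟨↑u⁻¹, ?_⟩⟩
    rw [← hu]
    exact eq_inv_of_mul_eq_one_left (by rw [← map_mul]; simp)
  · rintro ⟨h0, t, ht⟩
    refine IsUnit.of_mul_eq_one t ?_
    apply algebraMap_stalk_injective X x
    rw [map_mul, ht, map_one]
    exact mul_inv_cancel₀ h0

theorem exists_frac {U : X.Opens} [Nonempty U] (hU : IsAffineOpen U) {x : X} (hx : x ∈ U)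
    {z : X.functionField} (hz : z ∈ locR X x) :
    ∃ a b : Γ(X, U), IsUnit (X.presheaf.germ U x hx b) ∧
      z * X.germToFunctionField U b = X.germToFunctionField U a := by
  obtain ⟨t, rfl⟩ := hz
  let _hA := TopCat.Presheaf.algebra_section_stalk X.presheaf (⟨x, hx⟩ : U)
  have := hU.isLocalization_stalk ⟨x, hx⟩
  obtain ⟨⟨a, b⟩, hab⟩ := IsLocalization.surj (hU.primeIdealOf ⟨x, hx⟩).asIdeal.primeCompl t
  refine ⟨a, b, ?_, ?_⟩
  · exact IsLocalization.map_units (X.presheaf.stalk x) b
  · rw [← X.algebraMap_germ_eq_germToFunctionField hx, ← map_mul,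
      ← X.algebraMap_germ_eq_germToFunctionField hx]
    exact congrArg _ hab

theorem mem_range_of_forall {U : X.Opens} [Nonempty U] (hU : IsAffineOpen U)
    {z : X.functionField} (hz : ∀ x ∈ U, z ∈ locR X x) :
    ∃ a : Γ(X, U), X.germToFunctionField U a = z := by
  let I : Ideal Γ(X, U) :=
    { carrier := {b | ∃ a, X.germToFunctionField U a = z * X.germToFunctionField U b}
      add_mem' := by
        rintro b b' ⟨a, ha⟩ ⟨a', ha'⟩
        exact ⟨a + a', by rw [map_add, map_add, ha, ha', mul_add]⟩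
      zero_mem' := ⟨0, by simp⟩
      smul_mem' := by
        rintro c b ⟨a, ha⟩
        exact ⟨c * a, by rw [map_mul, smul_eq_mul, map_mul, ha]; ring⟩ }
  by_cases hI : I = ⊤
  · have h1 : (1 : Γ(X, U)) ∈ I := by rw [hI]; trivial
    obtain ⟨a, ha⟩ := h1
    exact ⟨a, by rw [ha, map_one, mul_one]⟩
  · exfalso
    obtain ⟨m, hm, hIm⟩ := Ideal.exists_le_maximal I hI
    let q : PrimeSpectrum Γ(X, U) := ⟨m, hm.isPrime⟩
    have hy : hU.fromSpec q ∈ U := by
      have : hU.fromSpec q ∈ hU.fromSpec.opensRange := ⟨q, rfl⟩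
      rwa [hU.opensRange_fromSpec] at this
    obtain ⟨a, b, hb, hab⟩ := exists_frac X hU hy (hz _ hy)
    have hbI : b ∈ I := ⟨a, hab.symm⟩
    rw [← Scheme.mem_basicOpen] at hb
    have h2 : q ∈ hU.fromSpec ⁻¹ᵁ X.basicOpen b := hb
    rw [hU.fromSpec_preimage_basicOpen] at h2
    exact h2 (hIm hbI)

end

end Pool.Agent.Helper49.Fano
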