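import Pool.Agent.Helper49.Fano.Conj
import Pool.Agent.Helper49.Fano.Loc

set_option autoImplicit false

open CategoryTheory AlgebraicGeometry Limits Opposite

namespace Pool.Agent.Helper49.Fano

noncomputable section

section

variable {X : Scheme.{0}} [IsIntegral X] (f : X ⟶ X) [IsIso f]

theorem f_gen : f (genericPoint X) = genericPoint X := genericPoint_eq_of_isOpenImmersion f

/-- the action of an automorphism on the function field -/
def tauHom : X.functionField ⟶ X.functionField :=
  X.presheaf.stalkSpecializes (specializes_of_eq (f_gen f)) ≫ f.stalkMap (genericPoint X)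

theorem tauHom_alg (x : X) (t : X.presheaf.stalk (f x)) :
    (tauHom f).hom (algebraMap (X.presheaf.stalk (f x)) X.functionField t) =
      algebraMap (X.presheaf.stalk x) X.functionField ((f.stalkMap x).hom t) := by
  have hx : genericPoint X ⤳ x := (genericPoint_spec X).specializes trivial
  have hfx : genericPoint X ⤳ f x := (genericPoint_spec X).specializes trivial
  have h1 := Scheme.Hom.stalkSpecializes_stalkMap f _ _ hx
  have h2 := TopCat.Presheaf.stalkSpecializes_comp X.presheaf (specializes_of_eq (f_gen f)) hfx
  have h3 : X.presheaf.stalkSpecializes hfx ≫ tauHom f =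
      f.stalkMap x ≫ X.presheaf.stalkSpecializes hx := by
    rw [tauHom, ← Category.assoc, h2]
    exact h1
  exact congrArg (fun g => g.hom t) h3

theorem tauHom_bij : Function.Bijective (tauHom f).hom := by
  have h1 : IsIso (X.presheaf.stalkSpecializes (specializes_of_eq (f_gen f))) :=
    (X.presheaf.stalkCongr (.of_eq (f_gen f).symm)).isIso_hom
  have h2 : IsIso (tauHom f) := by
    unfold tauHom
    infer_instance
  exact (asIso (tauHom f)).commRingCatIsoToRingEquiv.bijective

/-- the action of an automorphism on the function field, as a ring equivalence -/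
def tauK : X.functionField ≃+* X.functionField := RingEquiv.ofBijective _ (tauHom_bij f)

omit [IsIntegral X] in
theorem stalkMap_bij (x : X) : Function.Bijective (f.stalkMap x).hom :=
  (asIso (f.stalkMap x)).commRingCatIsoToRingEquiv.bijective

theorem tauK_mem (x : X) (z : X.functionField) : z ∈ locR X (f x) ↔ tauK f z ∈ locR X x := by
  constructor
  · rintro ⟨t, rfl⟩
    exact ⟨_, (tauHom_alg f x t).symm⟩
  · rintro ⟨t, ht⟩
    obtain ⟨t', rfl⟩ := (stalkMap_bij f x).2 t
    refine ⟨t', ?_⟩
    apply (tauK f).injective
    rw [← ht]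
    exact tauHom_alg f x t'

theorem tauK_germ (s : Γ(X, ⊤)) : tauK f ((X.presheaf.germ ⊤ (genericPoint X) trivial).hom s) =
    (X.presheaf.germ ⊤ (genericPoint X) trivial).hom (f.appTop.hom s) := by
  have h1 : X.presheaf.germ ⊤ (genericPoint X) trivial ≫ tauHom f =
      f.appTop ≫ X.presheaf.germ ⊤ (genericPoint X) trivial := by
    have h2 := TopCat.Presheaf.germ_stalkSpecializes X.presheaf (U := ⊤)
      (y := genericPoint X) trivial (specializes_of_eq (f_gen f))
    rw [tauHom]
    refine ((Category.assoc _ _ _).symm.trans ?_).trans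
      (Scheme.Hom.germ_stalkMap f ⊤ (genericPoint X) trivial)
    exact congrArg (· ≫ f.stalkMap (genericPoint X)) h2
  exact congrArg (fun g => g.hom s) h1

end

theorem tauK_const (V : CScheme) [IsIntegral V.X] (f : V.X ⟶ V.X) [IsIso f]
    (hf : f ≫ V.str = V.str ≫ conjSpec) (c : ℂ) :
    tauK f (V.constK c) = V.constK (starRingEnd ℂ c) := by
  have h0 := tauK_germ f (V.constHom.hom c)
  refine h0.trans ?_
  have h1 : (Scheme.ΓSpecIso (.of ℂ)).inv ≫ (f ≫ V.str).appTop =
      (Scheme.ΓSpecIso (.of ℂ)).inv ≫ (V.str ≫ conjSpec).appTop := by rw [hf]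
  rw [Scheme.Hom.comp_appTop f V.str] at h1
  have h2 : f.appTop.hom (V.constHom.hom c) = V.conj.constHom.hom c :=
    congrArg (fun g => g.hom c) h1
  rw [h2, conj_constHom_apply]
  rfl

end

end Pool.Agent.Helper49.Fano
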