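import Pool.Agent.Helper49.Fano.Anti
import Pool.Agent.Helper49.Fano.IsoK
import Pool.Agent.Helper49.Fano.ChartF
import Pool.Agent.Helper24.Fano.Model

set_option autoImplicit false

open CategoryTheory AlgebraicGeometry Limits Opposite

namespace Pool.Agent.Helper49.Fano

noncomputable section

namespace PD

variable {K : Type} [Field K] [Algebra ℂ K] (D : PD K)

/-- An isomorphism of the surface with its conjugate gives an equivalence of pencils. -/
theorem of_iso (s : ℂ) (ha : D.a = 1) (hb : D.b = s) (hc : D.c = s) (hd : D.d = 1)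
    (hfr : ∀ z : K, ∃ p ∈ D.B, ∃ q ∈ D.B, q ≠ 0 ∧ z = p / q)
    (hiso : Iso (VP D.e).conj (VP D.e)) :
    ∃ M : Matrix (Fin 5) (Fin 5) ℂ, M.det ≠ 0 ∧
      ∀ l m : ℂ, ∃ l' m' : ℂ, M * Helper92.Fano.Q (starRingEnd ℂ s) l m * M.transpose =
        Helper92.Fano.Q s l' m' := by
  have h1 : IsIntegral (PX D.e) := D.integral
  have h2 : IsIntegral (VP D.e).X := D.integral
  obtain ⟨E, hE⟩ := hiso
  let f : (VP D.e).X ⟶ (VP D.e).X := E.hom
  have hf : f ≫ (VP D.e).str = (VP D.e).str ≫ conjSpec := hE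
  have hfi : IsIso f := E.isIso_hom
  let τ : K ≃+* K := ((D.phi hfr).symm.trans (tauK f)).trans (D.phi hfr)
  have τ_apply : ∀ z, τ z = D.phi hfr (tauK f ((D.phi hfr).symm z)) := fun z => rfl
  have τ_const : ∀ c : ℂ, τ (algebraMap ℂ K c) = algebraMap ℂ K (starRingEnd ℂ c) := by
    intro c
    have h3 : (D.phi hfr).symm (algebraMap ℂ K c) = (VP D.e).constK c := by
      rw [← D.phi_const hfr, RingEquiv.symm_apply_apply]
    rw [τ_apply, h3, tauK_const (VP D.e) f hf, D.phi_const hfr]
  have τ_O : ∀ (y : PX D.e) (z : K), z ∈ D.O (f y) ↔ τ z ∈ D.O y := by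
    intro y z
    have h3 := D.phi_loc hfr (f y) ((D.phi hfr).symm z)
    rw [RingEquiv.apply_symm_apply] at h3
    rw [← h3, τ_apply, ← D.phi_loc hfr]
    exact tauK_mem f y _
  have τs_const : ∀ c : ℂ, τ.symm (algebraMap ℂ K c) = algebraMap ℂ K (starRingEnd ℂ c) := by
    intro c
    rw [RingEquiv.symm_apply_eq, τ_const, Complex.conj_conj]
  let t : K → K → K := fun u v => τ (D.th (τ.symm u) (τ.symm v))
  have t_apply : ∀ u v, t u v = τ (D.th (τ.symm u) (τ.symm v)) := fun _ _ => rfl
  have huniq := D.unique hfr t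
    (by intro a b c; rw [t_apply, t_apply, t_apply, map_add, D.th_add, map_add])
    (by
      intro a b c
      rw [t_apply, t_apply, t_apply, map_mul, D.th_mul, map_add, map_mul, map_mul,
        RingEquiv.apply_symm_apply, RingEquiv.apply_symm_apply])
    (by intro a c; rw [t_apply, τs_const, D.th_const, map_zero])
    (by intro a b; rw [t_apply, t_apply, D.th_swap, map_neg])
  set h := t D.x D.y / (2 * D.w) with hh
  have h0 : h ≠ 0 := by
    intro h3
    have h4 := huniq (τ D.x) (τ D.y)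
    rw [h3, zero_mul, t_apply, RingEquiv.symm_apply_apply, RingEquiv.symm_apply_apply,
      D.th_xy] at h4
    have h5 : (2 : K) * D.w = 0 := by
      apply τ.injective
      rw [h4, map_zero]
    exact mul_ne_zero two_ne D.hw h5
  refine D.matrix_arg s ha hb hc hd τ.toRingHom τ_const h h0 ?_
  intro j
  apply D.mem_of_reg
  intro y p hp q hq
  have h3 : h * τ.toRingHom (D.e j) * D.th p q = τ (D.e j * D.th (τ.symm p) (τ.symm q)) := by
    rw [map_mul, ← t_apply, huniq]
    change h * τ (D.e j) * D.th p q = τ (D.e j) * (h * D.th p q)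
    ring
  rw [h3, ← τ_O]
  refine D.reg_e j (f y) _ ?_ _ ?_
  · rw [τ_O, RingEquiv.apply_symm_apply]; exact hp
  · rw [τ_O, RingEquiv.apply_symm_apply]; exact hq

end PD

section

attribute [local instance] Helper49.FanoA.Model.field Helper49.FanoA.Model.alg

/-- the curve data of a model -/
def toPD {s : ℂ} (M : Helper49.FanoA.Model s) (h0 : s ≠ 0) (h1 : s ^ 2 ≠ 1) : PD M.K where
  x := M.x
  y := M.y
  w := M.w
  a := 1
  b := s
  c := s
  d := 1
  ha := one_ne_zero
  hb := h0
  hc := h0
  hd := one_ne_zero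
  hD := by
    intro h
    apply h1
    linear_combination -h
  hx := by
    have := M.indep.ne_zero (1, 0, 0)
    simpa using this
  hy := by
    have := M.indep.ne_zero (0, 1, 0)
    simpa using this
  eqn := by rw [M.eqn, map_one, one_mul]
  indep := M.indep
  th := M.th
  th_add := M.th_add
  th_mul := M.th_mul
  th_const := M.th_const
  th_swap := M.th_swap
  th_xy := M.th_xy

theorem main : ∃ S Y : CScheme, IsFano S 2 ∧ IsFano Y 2 ∧ ¬ Iso Y S ∧
    ∀ (lin : Prop) (n : ℕ), kappa lin Y n = kappa lin S n := by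
  obtain ⟨s, h0, h1, hs⟩ := Helper92.Fano.pencil
  obtain ⟨M⟩ := Helper49.FanoA.exists_model s h0 h1
  let D := toPD M h0 h1
  have hF : IsFano (VP D.e) 2 := D.isFano M.frac M.trans
  refine ⟨VP D.e, (VP D.e).conj, hF, hF.conj, ?_, fun lin n => kappa_conj _ _ _⟩
  intro hiso
  exact hs (D.of_iso s rfl rfl rfl rfl M.frac hiso)

end

end

end Pool.Agent.Helper49.Fano

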