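import Pool.Agent.Helper49.Fano.Defs

set_option autoImplicit false

open CategoryTheory AlgebraicGeometry Limits Opposite

namespace Pool.Agent.Helper49.Fano

noncomputable section

/-- A graded algebra over `R`: a graded ring with a ring homomorphism from `R` to its part of
degree zero. -/
structure GrAlg (R : CommRingCat.{0}) where
  /-- the ring -/
  A : Type
  [ring : CommRing A]
  /-- the homogeneous parts -/
  part : ℕ → AddSubgroup A
  [graded : GradedRing part]
  /-- the structure map -/
  φ : R →+* part 0

attribute [instance] GrAlg.ring GrAlg.graded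

/-- The structure morphism of `Proj` of a graded algebra over `R`. -/
def GrAlg.str {R : CommRingCat.{0}} (G : GrAlg R) : Proj G.part ⟶ Spec R :=
  Proj.toSpecZero G.part ≫ Spec.map (CommRingCat.ofHom G.φ)

/-- The graded algebra is generated over `R` by finitely many elements of degree one. -/
def GrAlg.Standard {R : CommRingCat.{0}} (G : GrAlg R) : Prop :=
  ∃ s : Set G.A, s.Finite ∧ s ⊆ G.part 1 ∧
    Subring.closure (Set.range (fun r => (G.φ r : G.A)) ∪ s) = ⊤

/-- `f : X ⟶ Spec R` is projective: `X` is isomorphic over `R` to `Proj` of a graded algebra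
over `R` generated by finitely many elements of degree one. -/
def IsProjective {R : CommRingCat.{0}} {X : Scheme.{0}} (f : X ⟶ Spec R) : Prop :=
  ∃ G : GrAlg R, G.Standard ∧ ∃ e : X ≅ Proj G.part, f = e.hom ≫ G.str

/-- The function field of an integral `ℂ`-scheme. -/
abbrev CScheme.K (V : CScheme) [IsIntegral V.X] : Type := V.X.functionField

/-- The map from global functions to the function field. -/
def Fn.toK (X : Scheme.{0}) [IsIntegral X] : Fn X ⊤ ⟶ X.functionField :=
  X.presheaf.germ ⊤ (genericPoint X) trivial

/-- The map from `ℂ` to the function field. -/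
def CScheme.constK (V : CScheme) [IsIntegral V.X] : ℂ →+* V.K :=
  (V.constHom ≫ Fn.toK V.X).hom

/-- The constants in the function field: the image of `ℂ`. -/
def CScheme.C (V : CScheme) [IsIntegral V.X] : Subfield V.K := V.constK.fieldRange

/-- The integral `ℂ`-scheme `V` has dimension `d`: the function field has a transcendence basis
with `d` elements over the constants. -/
def HasDim (V : CScheme) [IsIntegral V.X] (d : ℕ) : Prop :=
  ∃ b : Fin d → V.K, IsTranscendenceBasis V.C b

/-- Alternating multiderivations of degree `d` of a field `K` over a subfield `C`. These are the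
`K`-linear forms on `⋀^d Ω_{K/C}`; if `K` is the function field of an integral scheme of
dimension `d` smooth over `ℂ`, these are the rational sections of the anticanonical bundle. -/
structure IsMultiDer {K : Type} [Field K] (C : Subfield K) {d : ℕ}
    (δ : (Fin d → K) → K) : Prop where
  add : ∀ (v : Fin d → K) (i : Fin d) (a b : K), δ (Function.update v i (a + b)) =
    δ (Function.update v i a) + δ (Function.update v i b)
  leibniz : ∀ (v : Fin d → K) (i : Fin d) (a b : K), δ (Function.update v i (a * b)) =
    a * δ (Function.update v i b) + b * δ (Function.update v i a)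
  const : ∀ (v : Fin d → K) (i : Fin d), v i ∈ C → δ v = 0
  alt : ∀ (v : Fin d → K) (i j : Fin d), i ≠ j → v i = v j → δ v = 0

/-- The local ring of an integral scheme at a point, as a subring of the function field. -/
def CScheme.loc (V : CScheme) [IsIntegral V.X] (x : V.X) : Subring V.K :=
  (algebraMap (V.X.presheaf.stalk x) V.X.functionField).range

/-- A rational section `u • δ^{⊗ m}` of the `m`-th power of the anticanonical bundle of an
integral scheme of dimension `d` (smooth over `ℂ`). Every rational section has this form since
`⋀^d Ω` has rank one. -/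
structure AntiSec (V : CScheme) [IsIntegral V.X] (d m : ℕ) where
  /-- coefficient -/
  u : V.K
  /-- alternating multiderivation of degree `d` -/
  δ : (Fin d → V.K) → V.K
  isMultiDer : IsMultiDer V.C δ

/-- The value of a section of `(ω^{-1})^{⊗ m}` on
`(df_{11} ∧ ⋯ ∧ df_{1d}) ⊗ ⋯ ⊗ (df_{m1} ∧ ⋯ ∧ df_{md})`. -/
def AntiSec.val {V : CScheme} [IsIntegral V.X] {d m : ℕ} (s : AntiSec V d m)
    (f : Fin m → Fin d → V.K) : V.K := s.u * ∏ i, s.δ (f i)

/-- The section is regular at `x`: its values on differentials of functions regular at `x` are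
regular at `x`. -/
def AntiSec.RegularAt {V : CScheme} [IsIntegral V.X] {d m : ℕ} (s : AntiSec V d m)
    (x : V.X) : Prop :=
  ∀ f : Fin m → Fin d → V.K, (∀ i j, f i j ∈ V.loc x) → s.val f ∈ V.loc x

/-- The section is regular and does not vanish at `x` (it generates `ω^{-m}` near `x`): some value
on differentials of functions regular at `x` is a unit of the local ring. -/
def AntiSec.NonzeroAt {V : CScheme} [IsIntegral V.X] {d m : ℕ} (s : AntiSec V d m)
    (x : V.X) : Prop :=
  s.RegularAt x ∧ ∃ f : Fin m → Fin d → V.K, (∀ i j, f i j ∈ V.loc x) ∧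
    s.val f ≠ 0 ∧ (s.val f)⁻¹ ∈ V.loc x

/-- The anticanonical bundle of `V` (integral, smooth of dimension `d`) is ample: every point `x`
lies in an affine open set of the form `V_s`, the set of points where `s` does not vanish, `s` a
global section of a positive power of the anticanonical bundle. -/
def AmpleAnticanonical (V : CScheme) [IsIntegral V.X] (d : ℕ) : Prop :=
  ∀ x : V.X, ∃ (m : ℕ) (s : AntiSec V d m), 0 < m ∧ (∀ y, s.RegularAt y) ∧ s.NonzeroAt x ∧
    ∃ U : V.X.Opens, IsAffineOpen U ∧ (U : Set V.X) = {y | s.NonzeroAt y}

/-- Irreducible smooth projective varieties of dimension `d` over `ℂ`. -/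
structure IsSmoothProjVar (V : CScheme) (d : ℕ) : Prop where
  integral : IsIntegral V.X
  smooth : Smooth V.str
  projective : IsProjective V.str
  dim : HasDim V d

/-- Irreducible Fano varieties of dimension `d`: smooth projective varieties with ample
anticanonical bundle. -/
structure IsFano (V : CScheme) (d : ℕ) : Prop extends IsSmoothProjVar V d where
  ample : AmpleAnticanonical V d

/-- The fibre of `f : 𝒳 ⟶ Spec R` at the `ℂ`-point `b` of `Spec R`. -/
def fibre {R : CommRingCat.{0}} {X : Scheme.{0}} (f : X ⟶ Spec R) (b : R →+* ℂ) : CScheme where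
  X := pullback f (Spec.map (CommRingCat.ofHom b : R ⟶ .of ℂ))
  str := pullback.snd f (Spec.map (CommRingCat.ofHom b : R ⟶ .of ℂ))

/-- `V` and `W` are isomorphic to fibres of a smooth projective family whose fibres are (isomorphic
to) irreducible Fano varieties, over a connected affine base `Spec R`, where `R` is a finitely
generated `ℂ`-algebra with structure map `ι`; the (closed) points of the base are the ring
homomorphisms `b : R → ℂ` with `b ∘ ι = id`. -/
def InFamily (V W : CScheme) : Prop :=
  ∃ (R : CommRingCat.{0}) (ι : ℂ →+* R) (X : Scheme.{0}) (f : X ⟶ Spec R),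
    ι.FiniteType ∧ ConnectedSpace (PrimeSpectrum R) ∧ Smooth f ∧ IsProjective f ∧
    (∀ b : R →+* ℂ, b.comp ι = RingHom.id ℂ → ∃ F d, IsFano F d ∧ Iso F (fibre f b)) ∧
    (∃ b : R →+* ℂ, b.comp ι = RingHom.id ℂ ∧ Iso V (fibre f b)) ∧
    (∃ c : R →+* ℂ, c.comp ι = RingHom.id ℂ ∧ Iso W (fibre f c))

/-- Deformation equivalence: the equivalence relation generated by `InFamily`. -/
def DefEquiv : CScheme → CScheme → Prop := Relation.EqvGen InFamily

/-- The set of deformation classes. -/
def defSetoid : Setoid CScheme := ⟨DefEquiv, Relation.EqvGen.is_equivalence _⟩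

/-- `κ_Y(n)`: the number of irreducible Fano hosts of `Y` of dimension `n`, up to deformation
equivalence. -/
def kappa (lin : Prop) (Y : CScheme) (n : ℕ) : Cardinal :=
  Cardinal.mk {c : Quotient defSetoid // ∃ X : CScheme, IsFano X n ∧ Embeds lin Y X ∧
    c = Quotient.mk defSetoid X}

end

end Pool.Agent.Helper49.Fano
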