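import Mathlib

set_option autoImplicit false

open Polynomial

namespace Pool.Agent.Helper49.Fano

noncomputable section

variable {K : Type} [Field K] [Algebra ℂ K] {ι : Type} (g : ι → K)

/-- the space spanned by the family `g` -/
def spanW : Submodule ℂ K := Submodule.span ℂ (Set.range g)

/-- The section ring `⨁ W^n T^n`, as a subalgebra of `K[T]`. -/
def secRing : Subalgebra ℂ K[X] where
  carrier := { f | ∀ i, f.coeff i ∈ (spanW g) ^ i }
  mul_mem' hf hg i := by
    rw [coeff_mul]
    apply Submodule.sum_mem
    rintro ⟨j, k⟩ e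
    have e' : j + k = i := by simpa using e
    rw [← e', pow_add]
    exact Submodule.mul_mem_mul (hf j) (hg k)
  one_mem' i := by
    rw [coeff_one]
    split_ifs with h
    · subst h
      rw [pow_zero]
      exact Submodule.one_le.mp le_rfl
    · exact Submodule.zero_mem _
  add_mem' hf hg i := by
    rw [coeff_add]
    exact Submodule.add_mem _ (hf i) (hg i)
  zero_mem' _ := Submodule.zero_mem _
  algebraMap_mem' r i := by
    rw [show (algebraMap ℂ K[X] r) = C (algebraMap ℂ K r) from rfl, coeff_C]
    split_ifs with h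
    · subst h
      rw [pow_zero]
      exact Submodule.mem_one.mpr ⟨r, rfl⟩
    · exact Submodule.zero_mem _

theorem mem_secRing (f : K[X]) : f ∈ secRing g ↔ ∀ i, f.coeff i ∈ (spanW g) ^ i := Iff.rfl

theorem monomial_mem {n : ℕ} {c : K} : monomial n c ∈ secRing g ↔ c ∈ (spanW g) ^ n := by
  rw [mem_secRing]
  constructor
  · intro h
    simpa using h n
  · intro h i
    rw [coeff_monomial]
    split_ifs with hi
    · subst hi; exact h
    · exact Submodule.zero_mem _

/-- the graded pieces -/
def gr (n : ℕ) : AddSubgroup (secRing g) where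
  carrier := {a | ∀ i, i ≠ n → (a : K[X]).coeff i = 0}
  add_mem' ha hb i hi := by
    change ((_ + _ : secRing g) : K[X]).coeff i = 0
    rw [Subalgebra.coe_add, coeff_add, ha i hi, hb i hi, add_zero]
  zero_mem' i _ := by simp
  neg_mem' ha i hi := by
    change ((- _ : secRing g) : K[X]).coeff i = 0
    rw [Subalgebra.coe_neg, coeff_neg, ha i hi, neg_zero]

theorem mem_gr {n : ℕ} {a : secRing g} : a ∈ gr g n ↔ ∀ i, i ≠ n → (a : K[X]).coeff i = 0 := Iff.rfl

/-- the homogeneous element `c T^n` -/
def mon (n : ℕ) (c : K) (hc : c ∈ (spanW g) ^ n) : secRing g := ⟨monomial n c, (monomial_mem g).2 hc⟩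

theorem mon_mem (n : ℕ) (c : K) (hc : c ∈ (spanW g) ^ n) : mon g n c hc ∈ gr g n := by
  intro i hi
  simp [mon, coeff_monomial, Ne.symm hi]

theorem eq_mon {n : ℕ} {a : secRing g} (ha : a ∈ gr g n) : a = mon g n ((a : K[X]).coeff n) (a.2 n) := by
  apply Subtype.ext
  ext i
  simp only [mon, coeff_monomial]
  split_ifs with h
  · subst h; rfl
  · exact ha i (Ne.symm h)

instance : SetLike.GradedMonoid (gr g) where
  one_mem := by
    intro i hi
    change ((1 : secRing g) : K[X]).coeff i = 0
    rw [Subalgebra.coe_one, coeff_one, if_neg hi]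
  mul_mem i j a b ha hb := by
    rw [eq_mon g ha, eq_mon g hb]
    intro k hk
    change (monomial i _ * monomial j _ : K[X]).coeff k = 0
    rw [monomial_mul_monomial, coeff_monomial, if_neg (Ne.symm hk)]

theorem internal : DirectSum.IsInternal (gr g) := by
  classical
  constructor
  · rw [injective_iff_map_eq_zero]
    intro x hx
    ext n
    have h1 : ∀ x : DirectSum ℕ (fun n => gr g n), ((DirectSum.coeAddMonoidHom (gr g) x : secRing g) : K[X]).coeff n
        = ((x n : secRing g) : K[X]).coeff n := by
      intro x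
      induction x using DirectSum.induction_on with
      | zero => simp
      | of i y =>
        rw [DirectSum.coeAddMonoidHom_of]
        by_cases hi : i = n
        · subst hi
          rw [DirectSum.of_eq_same]
        · rw [DirectSum.of_eq_of_ne _ _ _ (Ne.symm hi), y.2 n (Ne.symm hi)]
          simp
      | add x y hx hy =>
        rw [map_add, Subalgebra.coe_add, coeff_add, hx, hy]
        simp
    have h2 := h1 x
    rw [hx] at h2
    have h3 := eq_mon g (x n).2
    have h4 : ((x n : secRing g) : K[X]).coeff n = 0 := by rw [← h2]; simp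
    have h5 : ((x n : secRing g) : K[X]) = 0 := by
      ext i
      by_cases hi : i = n
      · subst hi; simpa using h4
      · simpa using (x n).2 i hi
    simp [h5]
  · intro a
    refine ⟨∑ n ∈ (a : K[X]).support, DirectSum.of (fun n => gr g n) n
      ⟨mon g n ((a : K[X]).coeff n) (a.2 n), mon_mem g _ _ _⟩, ?_⟩
    rw [map_sum]
    simp only [DirectSum.coeAddMonoidHom_of]
    apply Subtype.ext
    rw [AddSubmonoidClass.coe_finsetSum]
    exact (as_sum_support (a : K[X])).symm

instance gradedRing : GradedRing (gr g) :=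
  { (inferInstance : SetLike.GradedMonoid (gr g)) with
    toDecomposition := (internal g).chooseDecomposition }

/-- evaluation at `T = 1` -/
def ev : secRing g →+* K := (Polynomial.evalRingHom 1).comp (secRing g).toSubring.subtype

theorem ev_mon (n : ℕ) (c : K) (hc : c ∈ (spanW g) ^ n) : ev g (mon g n c hc) = c := by
  simp [ev, mon]

theorem ev_eq {n : ℕ} {a : secRing g} (ha : a ∈ gr g n) : ev g a = (a : K[X]).coeff n := by
  rw [eq_mon g ha, ev_mon]
  simp [mon]

theorem ev_ne_zero {n : ℕ} {a : secRing g} (ha : a ∈ gr g n) (h0 : a ≠ 0) : ev g a ≠ 0 := by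
  rw [ev_eq g ha]
  intro h
  apply h0
  rw [eq_mon g ha]
  apply Subtype.ext
  simp [mon, h]

end

end Pool.Agent.Helper49.Fano
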