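import Pool.Agent.Helper49.Fano.ProjA
import Pool.Agent.Helper49.Fano.Loc

set_option autoImplicit false

open CategoryTheory AlgebraicGeometry Limits Opposite HomogeneousLocalization

namespace Pool.Agent.Helper49.Fano

noncomputable section

section General

variable {A : Type} [CommRing A] [IsDomain A] (𝒜 : ℕ → AddSubgroup A) [GradedRing 𝒜]

/-- the generic point -/
def botPt {m : ℕ} (hm : 0 < m) {f : A} (hf : f ∈ 𝒜 m) (h0 : f ≠ 0) : ProjectiveSpectrum 𝒜 where
  asHomogeneousIdeal := ⊥
  isPrime := by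
    rw [HomogeneousIdeal.toIdeal_bot]
    exact Ideal.isPrime_bot
  not_irrelevant_le := by
    intro h
    have h1 : f ∈ HomogeneousIdeal.irrelevant 𝒜 := by
      rw [HomogeneousIdeal.mem_irrelevant_iff, GradedRing.proj_apply,
        DirectSum.decompose_of_mem_ne 𝒜 hf hm.ne']
    have h2 := h h1
    rw [← HomogeneousIdeal.mem_iff, HomogeneousIdeal.toIdeal_bot] at h2
    exact h0 (by simpa using h2)

theorem proj_irreducible {m : ℕ} (hm : 0 < m) {f : A} (hf : f ∈ 𝒜 m) (h0 : f ≠ 0) :
    IrreducibleSpace (Proj 𝒜) := by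
  have h1 : closure ({botPt 𝒜 hm hf h0} : Set (ProjectiveSpectrum 𝒜)) = Set.univ := by
    rw [Set.eq_univ_iff_forall]
    intro y
    rw [← ProjectiveSpectrum.le_iff_mem_closure]
    change (⊥ : HomogeneousIdeal 𝒜) ≤ _
    exact bot_le
  have h2 : IrreducibleSpace (ProjectiveSpectrum 𝒜) := by
    rw [irreducibleSpace_def, Set.top_eq_univ, ← h1]
    exact isIrreducible_singleton.closure
  exact h2

theorem away_reduced (f : A) : IsReduced (Away 𝒜 f) := by
  have h1 : IsReduced (Localization.Away f) :=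
    isReduced_localizationPreserves (Submonoid.powers f) _ inferInstance
  exact isReduced_of_injective (algebraMap (Away 𝒜 f) (Localization.Away f)) (val_injective _)

theorem proj_reduced : AlgebraicGeometry.IsReduced (Proj 𝒜) := by
  have : ∀ i, AlgebraicGeometry.IsReduced ((Proj.affineOpenCover 𝒜).openCover.X i) := by
    intro i
    have := away_reduced 𝒜 (i.2 : A)
    change AlgebraicGeometry.IsReduced (Spec (CommRingCat.of (Away 𝒜 (i.2 : A))))
    infer_instance
  exact IsReduced.of_openCover _ (Proj.affineOpenCover 𝒜).openCover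

theorem proj_integral {m : ℕ} (hm : 0 < m) {f : A} (hf : f ∈ 𝒜 m) (h0 : f ≠ 0) :
    IsIntegral (Proj 𝒜) := by
  have := proj_irreducible 𝒜 hm hf h0
  have := proj_reduced 𝒜
  exact isIntegral_of_irreducibleSpace_of_isReduced _

theorem basicOpen_nonempty {m : ℕ} (hm : 0 < m) {f : A} (hf : f ∈ 𝒜 m) (h0 : f ≠ 0) :
    Nonempty (Proj.basicOpen 𝒜 f) :=
  ⟨⟨botPt 𝒜 hm hf h0, fun h => h0 (by
    have h2 : f ∈ (⊥ : HomogeneousIdeal 𝒜) := h
    rw [← HomogeneousIdeal.mem_iff, HomogeneousIdeal.toIdeal_bot] at h2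
    simpa using h2)⟩⟩

/-- the map of `(A_f)_0` to the function field of `Proj A` -/
def kap [IsIntegral (Proj 𝒜)] (f : A) [Nonempty (Proj.basicOpen 𝒜 f)] :
    Away 𝒜 f →+* (Proj 𝒜).functionField :=
  ((Proj 𝒜).germToFunctionField (Proj.basicOpen 𝒜 f)).hom.comp (Proj.awayToSection 𝒜 f).hom

omit [IsDomain A] in
theorem kap_awayMap [IsIntegral (Proj 𝒜)] {m' : ℕ} {f f' x : A}
    (hf' : f' ∈ 𝒜 m') (hx : x = f * f') [Nonempty (Proj.basicOpen 𝒜 f)]
    [Nonempty (Proj.basicOpen 𝒜 x)] (z : Away 𝒜 f) :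
    kap 𝒜 x (awayMap 𝒜 hf' hx z) = kap 𝒜 f z := by
  have h1 := Proj.awayMap_awayToSection 𝒜 hf' hx
  have h2 : (Proj.awayToSection 𝒜 x).hom (awayMap 𝒜 hf' hx z) =
      ((Proj 𝒜).presheaf.map (homOfLE (Proj.basicOpen_mono _ _ _ ⟨_, hx⟩)).op).hom
        ((Proj.awayToSection 𝒜 f).hom z) :=
    congrArg (fun g => g.hom z) h1
  change ((Proj 𝒜).germToFunctionField (Proj.basicOpen 𝒜 x)).hom _ =
    ((Proj 𝒜).germToFunctionField (Proj.basicOpen 𝒜 f)).hom _
  rw [h2]
  exact TopCat.Presheaf.germ_res_apply _ _ _ _ _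

omit [IsDomain A] in
theorem kap_bij {m : ℕ} (hm : 0 < m) {f : A} (hf : f ∈ 𝒜 m) :
    Function.Bijective (Proj.awayToSection 𝒜 f).hom := by
  have h := (Proj.basicOpenIsoAway 𝒜 f hf hm).commRingCatIsoToRingEquiv.bijective
  rwa [show ((Proj.basicOpenIsoAway 𝒜 f hf hm).commRingCatIsoToRingEquiv : _ → _) =
    (Proj.awayToSection 𝒜 f).hom from rfl] at h

end General

section Field

variable {K : Type} [Field K] [Algebra ℂ K] {ι : Type} (g : ι → K)

/-- `Proj` of the section ring -/
abbrev PX : Scheme.{0} := Proj (gr g)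

/-- the open set `D_+(g_i T)` -/
abbrev DU (i : ι) : (PX g).Opens := Proj.basicOpen (gr g) (lin g i)

theorem PX_integral {i : ι} (h : g i ≠ 0) : IsIntegral (PX g) :=
  proj_integral (gr g) one_pos (lin_mem g i) (lin_ne_zero g h)

theorem DU_nonempty {i : ι} (h : g i ≠ 0) : Nonempty (DU g i) :=
  basicOpen_nonempty (gr g) one_pos (lin_mem g i) (lin_ne_zero g h)

theorem DU_affine (i : ι) : IsAffineOpen (DU g i) :=
  Proj.isAffineOpen_basicOpen _ _ (lin_mem g i) one_pos

/-- sections over `D_+(g_i T)` as a subring of `K` -/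
def secK {i : ι} (h : g i ≠ 0) : Γ(PX g, DU g i) →+* K :=
  (psi g (lin_mem g i) (lin_ne_zero g h)).comp
    (RingEquiv.ofBijective _ (kap_bij (gr g) one_pos (lin_mem g i))).symm.toRingHom

theorem secK_awayToSection {i : ι} (h : g i ≠ 0) (a : Away (gr g) (lin g i)) :
    secK g h ((Proj.awayToSection (gr g) (lin g i)).hom a) =
      psi g (lin_mem g i) (lin_ne_zero g h) a := by
  unfold secK
  rw [RingHom.comp_apply]
  congr 1
  exact (RingEquiv.ofBijective _ (kap_bij (gr g) one_pos (lin_mem g i))).symm_apply_apply a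

theorem secK_injective {i : ι} (h : g i ≠ 0) : Function.Injective (secK g h) := by
  unfold secK
  rw [RingHom.coe_comp]
  exact (psi_injective g _ _).comp (RingEquiv.injective _)

/-- the map of the function field of `Proj` to `K` -/
def phiHom [IsIntegral (PX g)] {i : ι} (h : g i ≠ 0) : (PX g).functionField →+* K :=
  have := DU_nonempty g h
  have := functionField_isFractionRing_of_isAffineOpen (PX g) _ (DU_affine g i)
  IsFractionRing.lift (A := Γ(PX g, DU g i)) (secK_injective g h)

theorem phiHom_germ [IsIntegral (PX g)] {i : ι} (h : g i ≠ 0) [Nonempty (DU g i)]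
    (s : Γ(PX g, DU g i)) :
    phiHom g h ((PX g).germToFunctionField (DU g i) s) = secK g h s := by
  have := functionField_isFractionRing_of_isAffineOpen (PX g) _ (DU_affine g i)
  exact IsFractionRing.lift_algebraMap (A := Γ(PX g, DU g i)) (K := (PX g).functionField)
    (secK_injective g h) s

theorem phiHom_kap0 [IsIntegral (PX g)] {i : ι} (h : g i ≠ 0) [Nonempty (DU g i)]
    (a : Away (gr g) (lin g i)) :
    phiHom g h (kap (gr g) (lin g i) a) = psi g (lin_mem g i) (lin_ne_zero g h) a := by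
  rw [← secK_awayToSection, ← phiHom_germ]
  rfl

theorem phiHom_kap [IsIntegral (PX g)] {i : ι} (h : g i ≠ 0) {m : ℕ} (hm : 0 < m) {f : secRing g}
    (hf : f ∈ gr g m) (h0 : f ≠ 0) [Nonempty (Proj.basicOpen (gr g) f)]
    (a : Away (gr g) f) :
    phiHom g h (kap (gr g) f a) = psi g hf h0 a := by
  have := DU_nonempty g h
  have hx0 : lin g i * f ≠ 0 := mul_ne_zero (lin_ne_zero g h) h0
  have hx : lin g i * f ∈ gr g (1 + m) := SetLike.mul_mem_graded (lin_mem g i) hf
  have : Nonempty (Proj.basicOpen (gr g) (lin g i * f)) :=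
    basicOpen_nonempty (gr g) (by omega) hx hx0
  have key : (phiHom g h).comp (kap (gr g) (lin g i * f)) = psi g hx hx0 := by
    letI := (awayMap (gr g) hf (rfl : lin g i * f = lin g i * f)).toAlgebra
    have := Away.isLocalization_mul (lin_mem g i) hf rfl one_ne_zero
    refine IsLocalization.ringHom_ext (R := Away (gr g) (lin g i))
      (Submonoid.powers (Away.isLocalizationElem (lin_mem g i) hf)) ?_
    ext z
    change phiHom g h (kap (gr g) (lin g i * f) (awayMap (gr g) hf rfl z)) =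
      psi g hx hx0 (awayMap (gr g) hf rfl z)
    rw [kap_awayMap, phiHom_kap0, psi_awayMap g (lin_mem g i) (lin_ne_zero g h) hf rfl h0 hx hx0]
  have h2 : lin g i * f = f * lin g i := mul_comm _ _
  have hx' : lin g i * f ∈ gr g (m + 1) := by rw [add_comm]; exact hx
  rw [← kap_awayMap (gr g) (lin_mem g i) h2 a]
  have h3 := RingHom.congr_fun key (awayMap (gr g) (lin_mem g i) h2 a)
  rw [RingHom.comp_apply] at h3
  rw [h3, ← psi_awayMap g hf h0 (lin_mem g i) h2 (lin_ne_zero g h) hx' hx0]
  rfl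

end Field

end

end Pool.Agent.Helper49.Fano
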