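import Pool.Agent.Helper49.Fano.ProjB
import Pool.Agent.Helper49.Fano.Geo

set_option autoImplicit false

open CategoryTheory AlgebraicGeometry Limits Opposite HomogeneousLocalization

namespace Pool.Agent.Helper49.Fano

noncomputable section

variable {K : Type} [Field K] [Algebra ℂ K] {ι : Type} (g : ι → K)

/-- the isomorphism of the function field of `Proj` with `K` -/
def phiK [IsIntegral (PX g)] {i : ι} (h : g i ≠ 0)
    (hf : ∀ z : K, ∃ a ∈ chart g i, ∃ b ∈ chart g i, b ≠ 0 ∧ z = a / b) :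
    (PX g).functionField ≃+* K :=
  RingEquiv.ofBijective (phiHom g h) ⟨(phiHom g h).injective, by
    intro z
    obtain ⟨a, ha, b, hb, h0, rfl⟩ := hf z
    have := DU_nonempty g h
    obtain ⟨a', rfl⟩ := (psi_range g h a).1 ha
    obtain ⟨b', rfl⟩ := (psi_range g h b).1 hb
    refine ⟨kap (gr g) (lin g i) a' / kap (gr g) (lin g i) b', ?_⟩
    rw [map_div₀, phiHom_kap0, phiHom_kap0]⟩

/-- the local ring at a point, in `K` -/
def locK [IsIntegral (PX g)] {i : ι} (h : g i ≠ 0) (y : PX g) : Subring K :=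
  (locR (PX g) y).map (phiHom g h)

theorem secK_range {i : ι} (h : g i ≠ 0) (z : K) : z ∈ chart g i ↔ ∃ s, secK g h s = z := by
  rw [psi_range g h]
  constructor
  · rintro ⟨a, rfl⟩
    exact ⟨_, secK_awayToSection g h a⟩
  · rintro ⟨s, rfl⟩
    exact ⟨_, rfl⟩

theorem phiHom_germ' [IsIntegral (PX g)] {i j : ι} (h : g i ≠ 0) (hj : g j ≠ 0)
    [Nonempty (DU g j)] (s : Γ(PX g, DU g j)) :
    phiHom g h ((PX g).germToFunctionField (DU g j) s) = secK g hj s := by
  obtain ⟨a, rfl⟩ := (kap_bij (gr g) one_pos (lin_mem g j)).2 s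
  rw [secK_awayToSection]
  exact phiHom_kap g h one_pos (lin_mem g j) (lin_ne_zero g hj) a

theorem chart_le_locK [IsIntegral (PX g)] {i j : ι} (h : g i ≠ 0) (hj : g j ≠ 0) {y : PX g}
    (hy : y ∈ DU g j) {z : K} (hz : z ∈ chart g j) : z ∈ locK g h y := by
  have := DU_nonempty g hj
  obtain ⟨s, rfl⟩ := (secK_range g hj z).1 hz
  exact ⟨_, germ_mem_locR (PX g) hy s, phiHom_germ' g h hj s⟩

theorem locK_frac [IsIntegral (PX g)] {i j : ι} (h : g i ≠ 0) (hj : g j ≠ 0) {y : PX g}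
    (hy : y ∈ DU g j) {z : K} (hz : z ∈ locK g h y) :
    ∃ a ∈ chart g j, ∃ b ∈ chart g j, b ≠ 0 ∧ b⁻¹ ∈ locK g h y ∧ z = a / b := by
  have := DU_nonempty g hj
  obtain ⟨t, ht, rfl⟩ := hz
  obtain ⟨a, b, hb, hab⟩ := exists_frac (PX g) (DU_affine g j) hy ht
  rw [isUnit_germ_iff] at hb
  have h1 := congrArg (phiHom g h) hab
  rw [map_mul, phiHom_germ' g h hj, phiHom_germ' g h hj] at h1
  have h0 : secK g hj b ≠ 0 := by
    rw [← phiHom_germ' g h hj]
    exact (map_ne_zero _).2 hb.1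
  refine ⟨secK g hj a, (secK_range g hj _).2 ⟨_, rfl⟩, secK g hj b,
    (secK_range g hj _).2 ⟨_, rfl⟩, h0, ⟨_, hb.2, ?_⟩, ?_⟩
  · rw [map_inv₀, phiHom_germ' g h hj]
  · rw [eq_div_iff h0]
    exact h1

theorem mem_chart_of_forall [IsIntegral (PX g)] {i j : ι} (h : g i ≠ 0) (hj : g j ≠ 0) {z : K}
    (hz : ∀ y ∈ DU g j, z ∈ locK g h y) : z ∈ chart g j := by
  have := DU_nonempty g hj
  obtain ⟨⟨y0, hy0⟩⟩ := DU_nonempty g hj
  obtain ⟨t, ht, rfl⟩ := hz y0 hy0
  have h1 : ∀ y ∈ DU g j, t ∈ locR (PX g) y := by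
    intro y hy
    obtain ⟨t', ht', he⟩ := hz y hy
    rwa [(phiHom g h).injective he] at ht'
  obtain ⟨s, rfl⟩ := mem_range_of_forall (PX g) (DU_affine g j) h1
  rw [phiHom_germ' g h hj]
  exact (secK_range g hj _).2 ⟨_, rfl⟩

theorem mem_DU_of_isUnit {i j : ι} {y : PX g} (hy : y ∈ DU g j)
    (hu : IsUnit ((PX g).presheaf.germ (DU g j) y hy ((Proj.awayToSection (gr g) (lin g j)).hom
      (Away.isLocalizationElem (lin_mem g j) (lin_mem g i))))) : y ∈ DU g i := by
  have h0 := Proj.awayι_preimage_basicOpen (gr g) (lin_mem g j) one_pos (lin_mem g i) one_pos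
  set U := DU g j with hU
  let y' : U := ⟨y, hy⟩
  let p := (Proj.basicOpenIsoSpec (gr g) (lin g j) (lin_mem g j) one_pos).hom y'
  have hp : Proj.awayι (gr g) (lin g j) (lin_mem g j) one_pos p = y := by
    have h1 : (Proj.basicOpenIsoSpec (gr g) (lin g j) (lin_mem g j) one_pos).hom ≫
      Proj.awayι (gr g) (lin g j) (lin_mem g j) one_pos = (Proj.basicOpen (gr g) (lin g j)).ι := by
      rw [← Proj.basicOpenIsoSpec_inv_ι, Iso.hom_inv_id_assoc]
    change (((Proj.basicOpenIsoSpec (gr g) (lin g j) (lin_mem g j) one_pos).hom ≫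
      Proj.awayι (gr g) (lin g j) (lin_mem g j) one_pos) y') = y
    rw [h1]
    rfl
  have h2 : p ∈ PrimeSpectrum.basicOpen (Away.isLocalizationElem (lin_mem g j) (lin_mem g i)) := by
    have h3 : (Proj.basicOpenIsoSpec (gr g) (lin g j) (lin_mem g j) one_pos).hom =
        U.toSpecΓ ≫ Spec.map (Proj.awayToSection (gr g) (lin g j)) := rfl
    have h4 : p = Spec.map (Proj.awayToSection (gr g) (lin g j)) (U.toSpecΓ y') := by
      change ((Proj.basicOpenIsoSpec (gr g) (lin g j) (lin_mem g j) one_pos).hom y') = _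
      rw [h3]
      rfl
    rw [h4]
    change U.toSpecΓ y' ∈ PrimeSpectrum.basicOpen ((Proj.awayToSection (gr g) (lin g j)).hom
      (Away.isLocalizationElem (lin_mem g j) (lin_mem g i)))
    rw [← (DU_affine g j).fromSpec_preimage_basicOpen]
    have h5 : (DU_affine g j).fromSpec (U.toSpecΓ y') = y := by
      change (U.toSpecΓ ≫ (DU_affine g j).fromSpec) y' = y
      rw [(DU_affine g j).toSpecΓ_fromSpec]
      rfl
    change (DU_affine g j).fromSpec (U.toSpecΓ y') ∈ (PX g).basicOpen _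
    rw [h5]
    rwa [Scheme.mem_basicOpen _ _ _ hy]
  rw [← h0] at h2
  rw [← hp]
  exact h2

theorem mem_DU_of_chart_le [IsIntegral (PX g)] {i i' j : ι} (h : g i ≠ 0) (hi : g i' ≠ 0)
    (hj : g j ≠ 0) {y : PX g}
    (hy : y ∈ DU g j) (hz : g j / g i' ∈ locK g h y) : y ∈ DU g i' := by
  have := DU_nonempty g hj
  apply mem_DU_of_isUnit g hy
  rw [isUnit_germ_iff]
  have h1 : phiHom g h ((PX g).germToFunctionField (DU g j)
      ((Proj.awayToSection (gr g) (lin g j)).hom
      (Away.isLocalizationElem (lin_mem g j) (lin_mem g i')))) = g i' / g j := by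
    rw [phiHom_germ' g h hj, secK_awayToSection, psi_mk, pow_one, pow_one, ev_lin, ev_lin]
  have h2 : g i' / g j ≠ 0 := div_ne_zero hi hj
  constructor
  · intro h3
    rw [h3, map_zero] at h1
    exact h2 h1.symm
  · obtain ⟨t, ht, he⟩ := hz
    have h3 : ((PX g).germToFunctionField (DU g j)
      ((Proj.awayToSection (gr g) (lin g j)).hom
      (Away.isLocalizationElem (lin_mem g j) (lin_mem g i'))))⁻¹ = t := by
      apply (phiHom g h).injective
      rw [map_inv₀, h1, he, inv_div]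
    rw [h3]
    exact ht

/-- the structure morphism -/
def strP : PX g ⟶ Spec (.of ℂ) :=
  Proj.toSpecZero (gr g) ≫ Spec.map (CommRingCat.ofHom (phi0 g))

/-- the `ℂ`-scheme `Proj` -/
def VP : CScheme := ⟨PX g, strP g⟩

theorem VP_projective [Finite ι] : IsProjective (VP g).str :=
  ⟨⟨secRing g, gr g, phi0 g⟩, ⟨Set.range (lin g), Set.finite_range _,
    by rintro _ ⟨i, rfl⟩; exact lin_mem g i, closure_eq_top g⟩,
    CategoryTheory.Iso.refl _, (Category.id_comp (strP g)).symm⟩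

theorem awayι_strP (i : ι) : Proj.awayι (gr g) (lin g i) (lin_mem g i) one_pos ≫ strP g =
    Spec.map (CommRingCat.ofHom ((fromZeroRingHom (gr g) (Submonoid.powers (lin g i))).comp
      (phi0 g))) := by
  rw [strP, Proj.awayι_toSpecZero_assoc, ← Spec.map_comp, ← CommRingCat.ofHom_comp]

theorem const_res (i : ι) (c : ℂ) : (PX g).presheaf.map (homOfLE (le_top : DU g i ≤ ⊤)).op
    ((VP g).constHom.hom c) = (Proj.awayToSection (gr g) (lin g i)).hom
      (fromZeroRingHom (gr g) _ (phi0 g c)) := by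
  let U := DU g i
  let χ : CommRingCat.of ℂ ⟶ Γ(PX g, U) :=
    CommRingCat.ofHom ((fromZeroRingHom (gr g) (Submonoid.powers (lin g i))).comp (phi0 g)) ≫
      Proj.awayToSection (gr g) (lin g i)
  have h1 : U.ι ≫ strP g = U.toSpecΓ ≫ Spec.map χ := by
    have h2 : (Proj.basicOpenIsoSpec (gr g) (lin g i) (lin_mem g i) one_pos).hom ≫
      Proj.awayι (gr g) (lin g i) (lin_mem g i) one_pos = (Proj.basicOpen (gr g) (lin g i)).ι := by
      rw [← Proj.basicOpenIsoSpec_inv_ι, CategoryTheory.Iso.hom_inv_id_assoc]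
    have h3 : (Proj.basicOpenIsoSpec (gr g) (lin g i) (lin_mem g i) one_pos).hom =
        U.toSpecΓ ≫ Spec.map (Proj.awayToSection (gr g) (lin g i)) := rfl
    change (Proj.basicOpen (gr g) (lin g i)).ι ≫ strP g = _
    rw [← h2, Category.assoc, awayι_strP, h3, Category.assoc, ← Spec.map_comp]
  have h4 : (Scheme.ΓSpecIso (.of ℂ)).inv ≫ (U.ι ≫ strP g).appTop = χ ≫ U.topIso.inv := by
    have h7 := Scheme.ΓSpecIso_inv_naturality χ
    rw [h1, Scheme.Hom.comp_appTop, Scheme.Opens.toSpecΓ_appTop, ← reassoc_of% h7,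
      CategoryTheory.Iso.inv_hom_id_assoc]
  rw [Scheme.Hom.comp_appTop] at h4
  have h5 : (Scheme.ΓSpecIso (.of ℂ)).inv ≫ (strP g).appTop ≫ U.ι.appTop ≫ U.topIso.hom = χ := by
    rw [← Category.assoc, ← Category.assoc, Category.assoc _ _ U.ι.appTop, h4, Category.assoc,
      CategoryTheory.Iso.inv_hom_id, Category.comp_id]
  have h6 : U.ι.appTop ≫ U.topIso.hom = (PX g).presheaf.map (homOfLE (le_top : U ≤ ⊤)).op := by
    rw [Scheme.Opens.ι_appTop, Scheme.Opens.topIso_hom]
    exact ((PX g).presheaf.map_comp _ _).symm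
  rw [h6] at h5
  exact congrArg (fun f => f.hom c) h5

theorem phiHom_const [IsIntegral (PX g)] {i : ι} (h : g i ≠ 0) [IsIntegral (VP g).X] (c : ℂ) :
    phiHom g h ((VP g).constK c) = algebraMap ℂ K c := by
  have := DU_nonempty g h
  have h1 : (VP g).constK c = (PX g).germToFunctionField (DU g i)
      ((PX g).presheaf.map (homOfLE (le_top : DU g i ≤ ⊤)).op ((VP g).constHom.hom c)) := by
    exact (TopCat.Presheaf.germ_res_apply (PX g).presheaf _ _ _ _).symm
  rw [h1, const_res, phiHom_germ, secK_awayToSection, psi_const]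

end

end Pool.Agent.Helper49.Fano
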