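import Pool.Agent.Helper49.Fano.ProjC

set_option autoImplicit false

open CategoryTheory AlgebraicGeometry Limits Opposite HomogeneousLocalization

namespace Pool.Agent.Helper49.Fano

noncomputable section

variable {K : Type} [Field K] [Algebra ℂ K] {ι : Type} (g : ι → K)

theorem isTranscendenceBasis_of_ringEquiv {R S A B : Type} [CommRing R] [CommRing S] [CommRing A]
    [CommRing B] [Algebra R A] [Algebra S B] {ι : Type} (f : R ≃+* S) (e : A ≃+* B)
    (h : (algebraMap S B).comp f.toRingHom = e.toRingHom.comp (algebraMap R A)) {x : ι → A}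
    (hx : IsTranscendenceBasis R x) : IsTranscendenceBasis S (e ∘ x) := by
  have h' : RingHom.comp (algebraMap S B) (f : R →+* S) = RingHom.comp (e : A →+* B) (algebraMap R A) := h
  refine ⟨(algebraicIndependent_ringHom_iff_of_comp_eq f e e.injective h').2 hx.1, ?_⟩
  intro s hs hxs
  have h1 : AlgebraicIndepOn R id (e ⁻¹' s) := by
    have h2 : AlgebraicIndependent S (e ∘ (fun a : (e ⁻¹' s : Set A) => (a : A))) := by
      have h3 : (e ∘ (fun a : (e ⁻¹' s : Set A) => (a : A))) =
        (fun a : s => (a : B)) ∘ (fun a : (e ⁻¹' s : Set A) => (⟨e a, a.2⟩ : s)) := rfl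
      rw [h3]
      refine AlgebraicIndependent.comp hs _ ?_
      intro a b hab
      apply Subtype.ext
      exact e.injective (congrArg Subtype.val hab)
    exact (algebraicIndependent_ringHom_iff_of_comp_eq f e e.injective h').1 h2
  have h4 := hx.2 _ h1 (by
    rintro _ ⟨i, rfl⟩
    exact hxs ⟨i, rfl⟩)
  rw [Set.range_comp, h4]
  exact Set.image_preimage_eq s e.surjective

/-- `(A_f)_0` is the chart algebra -/
def awayEquiv {i : ι} (h : g i ≠ 0) : Away (gr g) (lin g i) ≃+* chart g i :=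
  RingEquiv.ofBijective ((psi g (lin_mem g i) (lin_ne_zero g h)).codRestrict (chart g i)
    (fun a => (psi_range g h _).2 ⟨a, rfl⟩)) ⟨fun a b hab =>
      psi_injective g _ _ (congrArg Subtype.val hab), fun z => by
        obtain ⟨a, ha⟩ := (psi_range g h _).1 z.2
        exact ⟨a, Subtype.ext ha⟩⟩

theorem ring_smooth {i : ι} (h : g i ≠ 0) (hs : Algebra.Smooth ℂ (chart g i)) :
    RingHom.Smooth ((fromZeroRingHom (gr g) (Submonoid.powers (lin g i))).comp (phi0 g)) := by
  have h1 : (fromZeroRingHom (gr g) (Submonoid.powers (lin g i))).comp (phi0 g) =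
      (awayEquiv g h).symm.toRingHom.comp (algebraMap ℂ (chart g i)) := by
    ext c
    apply congrArg HomogeneousLocalization.val
    apply (awayEquiv g h).injective
    change _ = (awayEquiv g h) ((awayEquiv g h).symm _)
    rw [RingEquiv.apply_symm_apply]
    apply Subtype.ext
    exact psi_const g _ _ c
  rw [h1]
  exact RingHom.Smooth.comp (RingHom.smooth_algebraMap.2 hs)
    (RingHom.Smooth.of_bijective (awayEquiv g h).symm.bijective)

theorem VP_smooth (hc : ∀ y : PX g, ∃ i, g i ≠ 0 ∧ Algebra.Smooth ℂ (chart g i) ∧ y ∈ DU g i) :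
    Smooth (VP g).str := by
  have : IsZariskiLocalAtSource @Smooth.{0} :=
    HasRingHomProperty.instIsZariskiLocalAtSource (Q := RingHom.Smooth)
  let I := {i : ι // g i ≠ 0 ∧ Algebra.Smooth ℂ (chart g i)}
  refine IsZariskiLocalAtSource.of_iSup_eq_top (P := @Smooth.{0}) (fun i : I => DU g i.1) ?_ ?_
  · rw [eq_top_iff]
    intro y _
    obtain ⟨i, h1, h2, h3⟩ := hc y
    exact TopologicalSpace.Opens.mem_iSup.2 ⟨⟨i, h1, h2⟩, h3⟩
  · rintro ⟨i, h1, h2⟩
    have h3 : (Proj.basicOpenIsoSpec (gr g) (lin g i) (lin_mem g i) one_pos).hom ≫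
      Proj.awayι (gr g) (lin g i) (lin_mem g i) one_pos = (Proj.basicOpen (gr g) (lin g i)).ι := by
      rw [← Proj.basicOpenIsoSpec_inv_ι, CategoryTheory.Iso.hom_inv_id_assoc]
    change Smooth ((Proj.basicOpen (gr g) (lin g i)).ι ≫ strP g)
    rw [← h3, Category.assoc, awayι_strP]
    have : Smooth (Spec.map (CommRingCat.ofHom
        ((fromZeroRingHom (gr g) (Submonoid.powers (lin g i))).comp (phi0 g)))) :=
      (HasRingHomProperty.Spec_iff (P := @Smooth.{0})).2 (ring_smooth g h1 h2)
    infer_instance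

theorem VP_C [IsIntegral (PX g)] [IsIntegral (VP g).X] {i : ι} (h : g i ≠ 0)
    (z : (PX g).functionField) :
    z ∈ (VP g).C ↔ phiHom g h z ∈ (algebraMap ℂ K).fieldRange := by
  constructor
  · rintro ⟨c, rfl⟩
    exact ⟨c, (phiHom_const g h c).symm⟩
  · rintro ⟨c, hc⟩
    refine ⟨c, (phiHom g h).injective ?_⟩
    rw [← hc]
    exact phiHom_const g h c

theorem VP_hasDim [IsIntegral (VP g).X] {i : ι} (h : g i ≠ 0)
    (hf : ∀ z : K, ∃ a ∈ chart g i, ∃ b ∈ chart g i, b ≠ 0 ∧ z = a / b) {d : ℕ} (b : Fin d → K)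
    (hb : IsTranscendenceBasis ℂ b) : HasDim (VP g) d := by
  have : IsIntegral (PX g) := ‹IsIntegral (VP g).X›
  let φ : (VP g).K ≃+* K := phiK g h hf
  have hφ : ∀ c, φ ((VP g).constK c) = algebraMap ℂ K c := phiHom_const g h
  refine ⟨fun j => φ.symm (b j), ?_⟩
  let f : ℂ ≃+* (VP g).C := (VP g).constK.rangeRestrictFieldEquiv
  refine isTranscendenceBasis_of_ringEquiv f φ.symm ?_ hb
  ext c
  change (VP g).constK c = φ.symm (algebraMap ℂ K c)
  rw [← hφ, RingEquiv.symm_apply_apply]

end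

end Pool.Agent.Helper49.Fano
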