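import Pool.Agent.Helper49.Fano.Final

set_option autoImplicit false

open CategoryTheory AlgebraicGeometry Limits Opposite

namespace Pool.Agent.Helper49.Fano

noncomputable section

/-- Sanity check: the identity functor shows that every `ℂ`-scheme embeds in itself. -/
theorem embeds_refl (lin : Prop) (V : CScheme) : Embeds lin V V := by
  refine ⟨𝟭 _, inferInstance, inferInstance, ⟨inferInstance, inferInstance, ?_⟩, ?_⟩
  · intro T hT
    refine Pretriangulated.isomorphic_distinguished _ hT _ ?_
    exact (dbCoh V.X).ι.mapTriangle.mapIso ((Functor.mapTriangleIdIso (Db V.X)).app T)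
  · intro _ c K e h
    exact h

/-- Sanity check: the Fano function of a del Pezzo surface does not vanish at `2`. -/
theorem kappa_ne_zero (lin : Prop) {S : CScheme} {n : ℕ} (h : IsFano S n) : kappa lin S n ≠ 0 := by
  rw [kappa, Cardinal.mk_ne_zero_iff]
  exact ⟨⟨_, S, h, embeds_refl lin S, rfl⟩⟩

section Linear

variable (X : Scheme.{0})

/-- restriction of global functions -/
def topRes (U : X.Opensᵒᵖ) : Γ(X, ⊤) →+* Γ(X, U.unop) := (X.presheaf.map (homOfLE le_top).op).hom

/-- multiplication by a global function on sections -/
def smulAt (r : Γ(X, ⊤)) (M : X.Modules) (U : X.Opensᵒᵖ) : Γ(M, U.unop) →+ Γ(M, U.unop) where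
  toFun m := topRes X U r • m
  map_zero' := smul_zero _
  map_add' := smul_add _

/-- Multiplication by a global function, as an endomorphism of an `𝒪_X`-module. -/
def smulHom (r : Γ(X, ⊤)) (M : X.Modules) : M ⟶ M :=
  show SheafOfModules.Hom M M from ⟨PresheafOfModules.homMk
    { app := fun U => AddCommGrpCat.ofHom (smulAt X r M U)
      naturality := by
        intro U V f
        ext m
        have h1 := Scheme.Modules.map_smul M f.unop (topRes X U r) m
        have h2 : X.presheaf.map f (topRes X U r) = topRes X V r := by
          simp only [topRes]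
          rw [← CommRingCat.comp_apply]
          rw [← Functor.map_comp]
          rfl
        refine Eq.trans ?_ h1.symm
        rw [show f.unop.op = f from rfl, h2]
        rfl }
    (by
      intro U s m
      exact (fun (s : Γ(X, U.unop)) (m : Γ(M, U.unop)) => by
        change topRes X U r • (s • m) = s • (topRes X U r • m)
        rw [smul_smul, smul_smul, mul_comm] : ∀ (s : Γ(X, U.unop)) (m : Γ(M, U.unop)),
          smulAt X r M U (s • m) = s • smulAt X r M U m) s m)⟩

theorem smulHom_natural (r : Γ(X, ⊤)) {M N : X.Modules} (f : M ⟶ N) :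
    smulHom X r M ≫ f = f ≫ smulHom X r N := by
  apply Scheme.Modules.hom_ext
  intro U
  ext m
  change f.app U (topRes X (op U) r • m) = topRes X (op U) r • f.app U m
  exact Scheme.Modules.Hom.app_smul f _ m

/-- Multiplication by a global function on a complex of `𝒪_X`-modules. -/
def smulCx (r : Γ(X, ⊤)) (K : CochainComplex X.Modules ℤ) : K ⟶ K where
  f n := smulHom X r (K.X n)
  comm' i j _ := smulHom_natural X r (K.d i j)

end Linear

/-- Sanity check: multiplication by a constant exists on every module, and is unique. -/
theorem exists_isMulBy (V : CScheme) (c : ℂ) (M : V.X.Modules) : ∃! f : M ⟶ M, IsMulBy V c f := by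
  refine ⟨smulHom V.X (V.constHom.hom c) M, ?_, ?_⟩
  · intro U
    ext m
    rfl
  · intro f hf
    apply Scheme.Modules.hom_ext
    intro U
    refine (hf U).trans ?_
    ext m
    rfl

end

end Pool.Agent.Helper49.Fano
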