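import Pool.Agent.Helper49.Fano.ChartD
import Pool.Agent.Helper49.Fano.ProjD

set_option autoImplicit false

open CategoryTheory AlgebraicGeometry Limits Opposite

namespace Pool.Agent.Helper49.Fano

noncomputable section

theorem adjoin_lin {K : Type} [Field K] [Algebra ℂ K] {ι : Type} (g : ι → K) :
    Algebra.adjoin (gr g 0) (Set.range (lin g)) = ⊤ := by
  rw [eq_top_iff]
  rintro z -
  have h1 : z ∈ Subring.closure (Set.range (fun r => (phi0 g r : secRing g)) ∪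
    Set.range (lin g)) := by rw [closure_eq_top]; trivial
  have h2 : Subring.closure (Set.range (fun r => (phi0 g r : secRing g)) ∪
    Set.range (lin g)) ≤ (Algebra.adjoin (gr g 0) (Set.range (lin g))).toSubring := by
    rw [Subring.closure_le]
    rintro _ (⟨r, rfl⟩ | ⟨j, rfl⟩)
    · exact (Algebra.adjoin (gr g 0) (Set.range (lin g))).algebraMap_mem (phi0 g r)
    · exact Algebra.subset_adjoin ⟨j, rfl⟩
  exact h2 h1

theorem locK_local {K : Type} [Field K] [Algebra ℂ K] {ι : Type} (g : ι → K)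
    [IsIntegral (PX g)] {i : ι} (h : g i ≠ 0) (y : PX g) :
    ∀ u ∈ locK g h y, ∀ v ∈ locK g h y, u + v ≠ 0 → (u + v)⁻¹ ∈ locK g h y →
      (u ≠ 0 ∧ u⁻¹ ∈ locK g h y) ∨ (v ≠ 0 ∧ v⁻¹ ∈ locK g h y) := by
  rintro _ ⟨_, ⟨s, rfl⟩, rfl⟩ _ ⟨_, ⟨t, rfl⟩, rfl⟩ h0 ⟨_, ⟨r, rfl⟩, hr⟩
  let F : (PX g).presheaf.stalk y →+* K :=
    (phiHom g h).comp (algebraMap ((PX g).presheaf.stalk y) (PX g).functionField)
  have hF : Function.Injective F :=
    (phiHom g h).injective.comp (algebraMap_stalk_injective (PX g) y)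
  have h1 : IsUnit (s + t) := by
    refine IsUnit.of_mul_eq_one r (hF ?_)
    have h2 : F r = (F s + F t)⁻¹ := hr
    rw [map_mul, map_add, h2, map_one]
    exact mul_inv_cancel₀ h0
  have key : ∀ s, IsUnit s → F s ≠ 0 ∧ (F s)⁻¹ ∈ locK g h y := by
    intro s hs
    obtain ⟨s', hs'⟩ := hs.exists_right_inv
    have h3 : F s * F s' = 1 := by rw [← map_mul, hs', map_one]
    refine ⟨left_ne_zero_of_mul_eq_one h3, ?_⟩
    rw [← eq_inv_of_mul_eq_one_right h3]
    exact ⟨_, ⟨s', rfl⟩, rfl⟩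
  rcases IsLocalRing.isUnit_or_isUnit_of_isUnit_add h1 with h2 | h2
  · exact Or.inl (key s h2)
  · exact Or.inr (key t h2)

namespace PD

variable {K : Type} [Field K] [Algebra ℂ K] (D : PD K)

theorem lin_sq : lin D.e 4 ^ 2 = algebraMap ℂ _ D.a * lin D.e 0 ^ 2 +
    algebraMap ℂ _ D.b * lin D.e 1 ^ 2 + algebraMap ℂ _ D.c * lin D.e 2 ^ 2 +
    algebraMap ℂ _ D.d * lin D.e 3 ^ 2 := by
  apply Subtype.ext
  have hl : ∀ i, ((lin D.e i ^ 2 : secRing D.e) : Polynomial K) =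
      Polynomial.monomial 2 (D.e i ^ 2) := by
    intro i
    change (Polynomial.monomial 1 (D.e i)) ^ 2 = _
    rw [Polynomial.monomial_pow, one_mul]
  have hm : ∀ (r : ℂ) i, ((algebraMap ℂ _ r * lin D.e i ^ 2 : secRing D.e) : Polynomial K) =
      Polynomial.monomial 2 (algebraMap ℂ K r * D.e i ^ 2) := by
    intro r i
    rw [Subalgebra.coe_mul, hl]
    change Polynomial.C (algebraMap ℂ K r) * _ = _
    rw [Polynomial.C_mul_monomial]
  rw [Subalgebra.coe_add, Subalgebra.coe_add, Subalgebra.coe_add, hm, hm, hm, hm, hl,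
    ← map_add, ← map_add, ← map_add]
  congr 1
  change D.w ^ 2 = algebraMap ℂ K D.a * 1 ^ 2 + algebraMap ℂ K D.b * D.x ^ 2 +
    algebraMap ℂ K D.c * D.y ^ 2 + algebraMap ℂ K D.d * (D.x * D.y) ^ 2
  rw [D.eqn]; ring

theorem cover (y : PX D.e) : ∃ i : Fin 4, y ∈ DU D.e (ix i) := by
  by_contra hcon
  push Not at hcon
  have h0 : ∀ i : Fin 4, lin D.e (ix i) ∈ y.asHomogeneousIdeal := by
    intro i
    by_contra h
    exact hcon i h
  have h1 : lin D.e 4 ∈ y.asHomogeneousIdeal := by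
    have hp : (y.asHomogeneousIdeal.toIdeal).IsPrime := y.isPrime
    refine hp.mem_of_pow_mem 2 ?_
    rw [D.lin_sq]
    refine Ideal.add_mem _ (Ideal.add_mem _ (Ideal.add_mem _ ?_ ?_) ?_) ?_
    · exact Ideal.mul_mem_left _ _ (Ideal.pow_mem_of_mem _ (h0 0) 2 two_pos)
    · exact Ideal.mul_mem_left _ _ (Ideal.pow_mem_of_mem _ (h0 1) 2 two_pos)
    · exact Ideal.mul_mem_left _ _ (Ideal.pow_mem_of_mem _ (h0 2) 2 two_pos)
    · exact Ideal.mul_mem_left _ _ (Ideal.pow_mem_of_mem _ (h0 3) 2 two_pos)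
  have h2 := Proj.iSup_basicOpen_eq_top' (gr D.e) (lin D.e) (fun i => ⟨1, lin_mem D.e i⟩)
    (adjoin_lin D.e)
  have h3 : y ∈ ⨆ i, Proj.basicOpen (gr D.e) (lin D.e i) := by rw [h2]; trivial
  obtain ⟨j, hj⟩ := TopologicalSpace.Opens.mem_iSup.1 h3
  apply hj
  have h4 : ∀ j : Fin 5, (∃ i : Fin 4, j = ix i) ∨ j = 4 := by
    intro j
    fin_cases j
    · exact Or.inl ⟨0, rfl⟩
    · exact Or.inl ⟨1, rfl⟩
    · exact Or.inl ⟨2, rfl⟩
    · exact Or.inl ⟨3, rfl⟩
    · exact Or.inr rfl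
  rcases h4 j with ⟨i, rfl⟩ | rfl
  · exact h0 i
  · exact h1

theorem integral : IsIntegral (PX D.e) := PX_integral D.e (D.e_ne 0)

theorem smoothV : Smooth (VP D.e).str := by
  apply VP_smooth
  intro y
  obtain ⟨i, hi⟩ := D.cover y
  refine ⟨ix i, D.e_ne i, ?_, hi⟩
  rw [D.chart_eq i]
  exact (D.ch i).smooth

/-- the local ring at a point of the surface, in `K` -/
def O [IsIntegral (PX D.e)] (y : PX D.e) : Subring K := locK D.e (D.e_ne 0) y

theorem isLocOf [IsIntegral (PX D.e)] {i : Fin 4} {y : PX D.e} (hy : y ∈ DU D.e (ix i)) :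
    (D.ch i).IsLocOf (D.O y) where
  le z hz := by
    rw [← D.chart_eq] at hz
    exact chart_le_locK D.e (D.e_ne 0) (D.e_ne i) hy hz
  frac z hz := by
    have := locK_frac D.e (D.e_ne 0) (D.e_ne i) hy hz
    rwa [D.chart_eq] at this
  loc := locK_local D.e (D.e_ne 0) y

end PD

end

end Pool.Agent.Helper49.Fano
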